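import Pool.Agent.H183.SX.Defs

/-! Task ADM: admissibility. -/

open MeasureTheory Set
open scoped ENNReal

namespace Pool.H183.SX

theorem ADM_cc (m r : ℕ) : cc m r = yy m r ∨ cc m r = 2 * yy m r := by
  unfold cc
  split_ifs
  · exact Or.inl rfl
  · exact Or.inr rfl

theorem ADM_cf (m j r : ℕ) : cf m j r = yy m r ∨ cf m j r = 2 * yy m r := by
  unfold cf
  split_ifs
  · exact Or.inr rfl
  · exact Or.inl rfl
  · exact ADM_cc m r

theorem ADM_ok (hO : S_OFF) : S_ADM := by
  refine ⟨fun m w hw => ⟨hw, ADM_cc m⟩, fun m j w hw => ⟨hw, ADM_cf m j⟩, ?_⟩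
  intro m j t ht r
  unfold ww
  split_ifs
  · exact hO t m _ ht
  · rw [abs_zero]
    positivity

end Pool.H183.SX
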