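import Pool.Agent.H183.SX.Defs

/-! final assembly from the steps -/

open MeasureTheory Set
open scoped ENNReal

namespace Pool.H183.SX

theorem main_of (hStar : S_STAR) (hMerge : S_MERGE) (hQ : S_Q) (hL : S_L) (hW : S_WEAK)
    (hInd : S_IND) (hAdm : S_ADM) (hNe : S_NE) (hPig : S_PIG) (hXR : S_XR) : Main := by
  intro m
  obtain ⟨hA1, hA2, hA3⟩ := hAdm
  have h0 : Adm m (fun _ => 0) (cc m) := hA1 m _ (fun r => by simp)
  refine ⟨(prof hQ hL m (fun _ => 0) (cc m) h0).reg, hMerge _ (hW hQ hL m _ _ h0),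
    hStar _, ?_⟩
  intro S hS hcard
  obtain ⟨j, hj, t, ht, hu⟩ := hPig m S hS hcard
  have hw := hA3 m j t ht
  have h1 : Adm m (ww m j t) (cc m) := hA1 m _ hw
  have h2 : Adm m (ww m j t) (cf m j) := hA2 m j _ hw
  refine ⟨(prof hQ hL m (ww m j t) (cf m j) h2).reg, hMerge _ (hW hQ hL m _ _ h2), hStar _,
    ?_, ?_⟩
  · rw [hInd hQ hL m _ _ h0 h1]
    exact hNe hQ hL m j _ h1 h2 hj
  · intro u hu'
    obtain ⟨hne, i, hi, hti⟩ := hu u hu'
    rw [hInd hQ hL m _ _ h0 h1]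
    funext x
    exact hXR hQ hL m j t u x h1 h2 hj ht hne ⟨i, hi, hti⟩

end Pool.H183.SX
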