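import Pool.Agent.H183.SX.Defs

/-!
Star-shaped polygons and X-rays, step CPT: regions are compact with nonempty interior.
-/

set_option autoImplicit false

open MeasureTheory Set
open scoped ENNReal

namespace Pool.H183.SX

theorem CPT_norm (p : E2) : ‖p‖ ≤ |p 0| + |p 1| := by
  rw [EuclideanSpace.norm_eq, Fin.sum_univ_two]
  apply Real.sqrt_le_iff.2
  refine ⟨by positivity, ?_⟩
  rw [Real.norm_eq_abs, Real.norm_eq_abs]
  nlinarith [abs_nonneg (p 0), abs_nonneg (p 1), mul_nonneg (abs_nonneg (p 0)) (abs_nonneg (p 1))]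

theorem CPT_c0 : Continuous fun p : E2 => p 0 := by fun_prop

theorem CPT_c1 : Continuous fun p : E2 => p 1 := by fun_prop

theorem CPT_closed (A : Prof) (i : ℕ) : IsClosed (A.tri i) := by
  have c0 := CPT_c0
  have c1 := CPT_c1
  have h1 : IsClosed {p : E2 | 0 ≤ p 0} := isClosed_le continuous_const c0
  have h2 : IsClosed {p : E2 | A.q i * p 0 ≤ p 1} := isClosed_le (c0.const_mul _) c1
  have h3 : IsClosed {p : E2 | p 1 ≤ A.q (i + 1) * p 0} := isClosed_le c1 (c0.const_mul _)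
  have h4 : IsClosed {p : E2 | A.a i * p 0 + A.b i * p 1 ≤ 1} :=
    isClosed_le ((c0.const_mul _).add (c1.const_mul _)) continuous_const
  exact h1.inter (h2.inter (h3.inter h4))

theorem CPT_bounded (A : Prof) (i : ℕ) (hi : i ≤ A.N) : Bornology.IsBounded (A.tri i) := by
  have hl := A.hl i hi
  have hr := A.hr i hi
  obtain ⟨d, hd, hd1, hd2⟩ : ∃ d : ℝ, 0 < d ∧ d ≤ A.a i + A.b i * A.q i ∧
      d ≤ A.a i + A.b i * A.q (i + 1) :=
    ⟨min (A.a i + A.b i * A.q i) (A.a i + A.b i * A.q (i + 1)), lt_min hl hr,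
      min_le_left _ _, min_le_right _ _⟩
  refine (Metric.isBounded_closedBall (x := (0 : E2))
    (r := (1 + |A.q i| + |A.q (i + 1)|) / d)).subset ?_
  rintro p ⟨h1, h2, h3, h4⟩
  rw [mem_closedBall_zero_iff]
  have hx : d * p 0 ≤ 1 := by
    rcases le_total 0 (A.b i) with hb | hb
    · have e1 : A.b i * (A.q i * p 0) ≤ A.b i * p 1 := mul_le_mul_of_nonneg_left h2 hb
      have e2 : d * p 0 ≤ (A.a i + A.b i * A.q i) * p 0 := mul_le_mul_of_nonneg_right hd1 h1
      linarith [e1, e2, h4, mul_assoc (A.b i) (A.q i) (p 0), add_mul (A.a i) (A.b i * A.q i) (p 0)]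
    · have e1 : A.b i * (A.q (i + 1) * p 0) ≤ A.b i * p 1 := mul_le_mul_of_nonpos_left h3 hb
      have e2 : d * p 0 ≤ (A.a i + A.b i * A.q (i + 1)) * p 0 := mul_le_mul_of_nonneg_right hd2 h1
      linarith [e1, e2, h4, mul_assoc (A.b i) (A.q (i + 1)) (p 0),
        add_mul (A.a i) (A.b i * A.q (i + 1)) (p 0)]
  have hy : |p 1| ≤ (|A.q i| + |A.q (i + 1)|) * p 0 := by
    rw [abs_le]
    constructor
    · have e1 : -|A.q i| * p 0 ≤ A.q i * p 0 :=
        mul_le_mul_of_nonneg_right (neg_abs_le _) h1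
      have e2 : 0 ≤ |A.q (i + 1)| * p 0 := mul_nonneg (abs_nonneg _) h1
      linarith [add_mul (|A.q i|) (|A.q (i + 1)|) (p 0)]
    · have e1 : A.q (i + 1) * p 0 ≤ |A.q (i + 1)| * p 0 :=
        mul_le_mul_of_nonneg_right (le_abs_self _) h1
      have e2 : 0 ≤ |A.q i| * p 0 := mul_nonneg (abs_nonneg _) h1
      linarith [add_mul (|A.q i|) (|A.q (i + 1)|) (p 0)]
  refine (CPT_norm p).trans ?_
  rw [abs_of_nonneg h1, le_div_iff₀ hd]
  have hM : 0 ≤ 1 + |A.q i| + |A.q (i + 1)| := by positivity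
  calc (p 0 + |p 1|) * d ≤ (p 0 + (|A.q i| + |A.q (i + 1)|) * p 0) * d := by gcongr
    _ = (1 + |A.q i| + |A.q (i + 1)|) * (d * p 0) := by ring
    _ ≤ (1 + |A.q i| + |A.q (i + 1)|) * 1 := mul_le_mul_of_nonneg_left hx hM
    _ = _ := mul_one _

theorem CPT_ok : S_CPT := by
  intro A
  refine ⟨?_, ?_⟩
  · have e : A.reg = ⋃ i ∈ Finset.range (A.N + 1), A.tri i := by
      ext p
      simp only [Prof.reg, mem_ofPred_eq, mem_iUnion, Finset.mem_range, exists_prop]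
      constructor
      · rintro ⟨i, hi, hp⟩
        exact ⟨i, by omega, hp⟩
      · rintro ⟨i, hi, hp⟩
        exact ⟨i, by omega, hp⟩
    rw [e]
    refine Finset.isCompact_biUnion _ fun i hi => ?_
    exact Metric.isCompact_of_isClosed_isBounded (CPT_closed A i)
      (CPT_bounded A i (by have := Finset.mem_range.1 hi; omega))
  · have c0 := CPT_c0
    have c1 := CPT_c1
    have h1 : IsOpen {p : E2 | 0 < p 0} := isOpen_lt continuous_const c0
    have h2 : IsOpen {p : E2 | A.q 0 * p 0 < p 1} := isOpen_lt (c0.const_mul _) c1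
    have h3 : IsOpen {p : E2 | p 1 < A.q (0 + 1) * p 0} := isOpen_lt c1 (c0.const_mul _)
    have h4 : IsOpen {p : E2 | A.a 0 * p 0 + A.b 0 * p 1 < 1} :=
      isOpen_lt ((c0.const_mul _).add (c1.const_mul _)) continuous_const
    have hU := h1.inter (h2.inter (h3.inter h4))
    have hsub : {p : E2 | 0 < p 0} ∩ ({p : E2 | A.q 0 * p 0 < p 1} ∩
        ({p : E2 | p 1 < A.q (0 + 1) * p 0} ∩ {p : E2 | A.a 0 * p 0 + A.b 0 * p 1 < 1})) ⊆
        A.reg := by
      rintro p ⟨k1, k2, k3, k4⟩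
      exact ⟨0, Nat.zero_le _, le_of_lt k1, le_of_lt k2, le_of_lt k3, le_of_lt k4⟩
    have hl := A.hl 0 (Nat.zero_le _)
    have hr := A.hr 0 (Nat.zero_le _)
    have hq := A.hq 0 (Nat.zero_le _)
    obtain ⟨c, hc⟩ : ∃ c : ℝ, c = A.a 0 + A.b 0 * ((A.q 0 + A.q (0 + 1)) / 2) := ⟨_, rfl⟩
    have hc0 : 0 < c := by rw [hc]; linarith
    obtain ⟨ε, hε, hε1⟩ : ∃ ε : ℝ, 0 < ε ∧ ε * c < 1 := by
      refine ⟨(2 * c + 1)⁻¹, by positivity, ?_⟩
      rw [inv_mul_lt_iff₀ (by positivity)]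
      linarith
    refine ⟨!₂[ε, ε * ((A.q 0 + A.q (0 + 1)) / 2)], interior_maximal hsub hU ?_⟩
    refine ⟨?_, ?_, ?_, ?_⟩
    · show 0 < ε
      exact hε
    · show A.q 0 * ε < ε * ((A.q 0 + A.q (0 + 1)) / 2)
      nlinarith
    · show ε * ((A.q 0 + A.q (0 + 1)) / 2) < A.q (0 + 1) * ε
      nlinarith
    · show A.a 0 * ε + A.b 0 * (ε * ((A.q 0 + A.q (0 + 1)) / 2)) < 1
      rw [hc] at hε1
      linarith

end Pool.H183.SX
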