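import Pool.Agent.H183.SX.Defs

/-!
Task DIFF: comparison of two profiles on a line.
-/

set_option autoImplicit false

open MeasureTheory Set
open scoped ENNReal

namespace Pool.H183.SX

lemma DIFF_q_le (A : Prof) {i j : ℕ} (h : i ≤ j) (hj : j ≤ A.N + 1) : A.q i ≤ A.q j := by
  induction j, h using Nat.le_induction with
  | base => exact le_rfl
  | succ j hij ih => exact (ih (by omega)).trans (A.hq j (by omega)).le

lemma DIFF_apply (x u : E2) (k : Fin 2) (s : ℝ) : (x + s • u) k = x k + s * u k := by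
  simp

lemma DIFF_cont (x u : E2) (k : Fin 2) : Continuous fun s : ℝ => (x + s • u) k := by
  simp only [DIFF_apply]
  fun_prop

lemma DIFF_closed (A : Prof) (x u : E2) (i : ℕ) : IsClosed (A.lin x u i) := by
  have h0 := DIFF_cont x u 0
  have h1 := DIFF_cont x u 1
  have e : A.lin x u i = {s : ℝ | 0 ≤ (x + s • u) 0} ∩
      ({s : ℝ | A.q i * (x + s • u) 0 ≤ (x + s • u) 1} ∩
        ({s : ℝ | (x + s • u) 1 ≤ A.q (i + 1) * (x + s • u) 0} ∩
          {s : ℝ | A.a i * (x + s • u) 0 + A.b i * (x + s • u) 1 ≤ 1})) := rfl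
  rw [e]
  exact (isClosed_le continuous_const h0).inter
    ((isClosed_le (continuous_const.mul h0) h1).inter
      ((isClosed_le h1 (continuous_const.mul h0)).inter
        (isClosed_le ((continuous_const.mul h0).add (continuous_const.mul h1))
          continuous_const)))

lemma DIFF_sub (x u : E2) (c : ℝ) (h : u 1 - c * u 0 ≠ 0) :
    ({s : ℝ | (x + s • u) 1 = c * (x + s • u) 0}).Subsingleton := by
  intro s hs t ht
  have hs' : (x + s • u) 1 = c * (x + s • u) 0 := hs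
  have ht' : (x + t • u) 1 = c * (x + t • u) 0 := ht
  rw [DIFF_apply, DIFF_apply] at hs' ht'
  have h1 : (s - t) * (u 1 - c * u 0) = 0 := by linear_combination hs' - ht'
  rcases mul_eq_zero.1 h1 with h2 | h2
  · linarith
  · exact absurd h2 h

lemma DIFF_ae (A : Prof) (x u : E2) {i j : ℕ} (hi : i ≤ A.N) (hj : j ≤ A.N) (hij : i ≠ j)
    (h1 : u 1 - A.q i * u 0 ≠ 0) (h2 : u 1 - A.q (i + 1) * u 0 ≠ 0) :
    volume (A.lin x u i ∩ A.lin x u j) = 0 := by
  rcases lt_or_gt_of_ne hij with h | h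
  · refine Set.Subsingleton.measure_zero ((DIFF_sub x u _ h2).anti ?_) _
    rintro s ⟨⟨ha0, -, ha2, -⟩, ⟨-, hb1, -, -⟩⟩
    show (x + s • u) 1 = A.q (i + 1) * (x + s • u) 0
    have h3 := DIFF_q_le A (i := i + 1) (j := j) h (by omega)
    have h4 := mul_le_mul_of_nonneg_right h3 ha0
    linarith
  · refine Set.Subsingleton.measure_zero ((DIFF_sub x u _ h1).anti ?_) _
    rintro s ⟨⟨ha0, ha1, -, -⟩, ⟨-, -, hb2, -⟩⟩
    show (x + s • u) 1 = A.q i * (x + s • u) 0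
    have h3 := DIFF_q_le A (i := j + 1) (j := i) h (by omega)
    have h4 := mul_le_mul_of_nonneg_right h3 ha0
    linarith

lemma DIFF_split (A : Prof) (I : Finset ℕ) (x u : E2) (hI : ∀ i ∈ I, i ≤ A.N)
    (h : ∀ i ∈ I, u 1 - A.q i * u 0 ≠ 0 ∧ u 1 - A.q (i + 1) * u 0 ≠ 0) :
    xray u A.reg x = volume {s : ℝ | ∃ i ≤ A.N, i ∉ I ∧ s ∈ A.lin x u i} +
      ∑ i ∈ I, volume (A.lin x u i) := by
  have e1 : {s : ℝ | x + s • u ∈ A.reg} =
      {s : ℝ | ∃ i ≤ A.N, i ∉ I ∧ s ∈ A.lin x u i} ∪ ⋃ i ∈ I, A.lin x u i := by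
    ext s
    simp only [Set.mem_union, Set.mem_iUnion]
    constructor
    · rintro ⟨i, hi, hs⟩
      by_cases hiI : i ∈ I
      · exact Or.inr ⟨i, hiI, hs⟩
      · exact Or.inl ⟨i, hi, hiI, hs⟩
    · rintro (⟨i, hi, -, hs⟩ | ⟨i, hi, hs⟩)
      · exact ⟨i, hi, hs⟩
      · exact ⟨i, hI i hi, hs⟩
  have hm : ∀ i, MeasurableSet (A.lin x u i) := fun i => (DIFF_closed A x u i).measurableSet
  have hU : NullMeasurableSet (⋃ i ∈ I, A.lin x u i) (volume : Measure ℝ) :=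
    (Finset.measurableSet_biUnion I fun i _ => hm i).nullMeasurableSet
  have hd : AEDisjoint (volume : Measure ℝ) {s : ℝ | ∃ i ≤ A.N, i ∉ I ∧ s ∈ A.lin x u i}
      (⋃ i ∈ I, A.lin x u i) := by
    show volume ({s : ℝ | ∃ i ≤ A.N, i ∉ I ∧ s ∈ A.lin x u i} ∩ ⋃ i ∈ I, A.lin x u i) = 0
    have hsub : ({s : ℝ | ∃ i ≤ A.N, i ∉ I ∧ s ∈ A.lin x u i} ∩ ⋃ i ∈ I, A.lin x u i) ⊆
        ⋃ i ∈ I, ⋃ j ∈ (Finset.range (A.N + 1)).filter (fun j => j ∉ I),
          (A.lin x u i ∩ A.lin x u j) := by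
      rintro s ⟨⟨j, hj, hjI, hs⟩, hs'⟩
      simp only [Set.mem_iUnion] at hs' ⊢
      obtain ⟨i, hi, hs'⟩ := hs'
      exact ⟨i, hi, j, Finset.mem_filter.2 ⟨Finset.mem_range.2 (by omega), hjI⟩, hs', hs⟩
    refine measure_mono_null hsub ?_
    refine (measure_biUnion_null_iff (I := (I : Set ℕ)) I.countable_toSet).2 fun i hi => ?_
    refine (measure_biUnion_null_iff
      (I := (((Finset.range (A.N + 1)).filter fun j => j ∉ I : Finset ℕ) : Set ℕ))
      (Finset.countable_toSet _)).2 fun j hj => ?_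
    have hj' := Finset.mem_filter.1 hj
    have hj1 := Finset.mem_range.1 hj'.1
    exact DIFF_ae A x u (hI i hi) (by omega) (fun e => hj'.2 (e ▸ hi)) (h i hi).1 (h i hi).2
  unfold xray
  rw [e1, measure_union₀ hU hd, measure_biUnion_finset₀]
  · intro i hi j hj hij
    exact DIFF_ae A x u (hI i hi) (hI j hj) hij (h i hi).1 (h i hi).2
  · intro i _
    exact (hm i).nullMeasurableSet

theorem DIFF_ok : S_DIFF := by
  intro A A' I x u hN hq hI hab h
  rw [DIFF_split A I x u hI h, DIFF_split A' I x u (by rw [hN]; exact hI) (by rw [hq]; exact h)]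
  have e : {s : ℝ | ∃ i ≤ A'.N, i ∉ I ∧ s ∈ A'.lin x u i} =
      {s : ℝ | ∃ i ≤ A.N, i ∉ I ∧ s ∈ A.lin x u i} := by
    have e1 : ∀ i ≤ A.N, i ∉ I → A'.lin x u i = A.lin x u i := by
      intro i hi hiI
      obtain ⟨h1, h2⟩ := hab i hi hiI
      unfold Prof.lin Prof.tri
      rw [h1, h2, hq]
    ext s
    constructor
    · rintro ⟨i, hi, hiI, hs⟩
      rw [hN] at hi
      exact ⟨i, hi, hiI, e1 i hi hiI ▸ hs⟩
    · rintro ⟨i, hi, hiI, hs⟩
      exact ⟨i, by rw [hN]; exact hi, hiI, (e1 i hi hiI).symm ▸ hs⟩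
  rw [e, add_right_comm]

end Pool.H183.SX
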