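import Mathlib

/-!
# Star-shaped polygons and X-rays: definitions and the list of steps

Problem MP_7519fe_gt, Q2.
-/

open MeasureTheory Set
open scoped ENNReal

namespace Pool.H183.SX

/-- the Euclidean plane -/
abbrev E2 := EuclideanSpace ℝ (Fin 2)

/-- The X-ray of `K` in the direction `u` (a unit vector): the length of the intersection of `K`
with the line through `x` parallel to `u`. -/
noncomputable def xray (u : E2) (K : Set E2) (x : E2) : ℝ≥0∞ := volume {s : ℝ | x + s • u ∈ K}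

/-- The closed polygonal curve with vertices `v 0, …, v (n+2)`: the point with parameter
`s ∈ [0,1)` on the edge from `v i` to `v (i+1)` (indices modulo `n+3`). -/
noncomputable def edgePt {n : ℕ} (v : Fin (n + 3) → E2) (p : Fin (n + 3) × Ico (0 : ℝ) 1) : E2 :=
  (1 - (p.2 : ℝ)) • v p.1 + (p.2 : ℝ) • v (p.1 + 1)

/-- A polygon: a compact set with nonempty interior whose boundary is a simple closed polygonal
curve. -/
def IsPolygon (K : Set E2) : Prop :=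
  IsCompact K ∧ (interior K).Nonempty ∧
    ∃ (n : ℕ) (v : Fin (n + 3) → E2), Function.Injective (edgePt v) ∧
      frontier K = range (edgePt v)

/-- Star-shaped: some point `p` of `K` sees all of `K`. -/
def IsStarShaped (K : Set E2) : Prop := ∃ p ∈ K, ∀ x ∈ K, segment ℝ p x ⊆ K

/-- The theorem. -/
def Main : Prop := ∀ m : ℕ, ∃ P : Set E2, IsPolygon P ∧ IsStarShaped P ∧
  ∀ S : Finset E2, (∀ u ∈ S, ‖u‖ = 1) → S.card ≤ m →
    ∃ P' : Set E2, IsPolygon P' ∧ IsStarShaped P' ∧ P' ≠ P ∧ ∀ u ∈ S, xray u P' = xray u P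

/-! ### radial profiles: star-shaped polygons with apex 0 in the half plane x ≥ 0 -/

/-- slopes `q 0 < q 1 < … < q (N+1)`; in the sector between the slopes `q i` and `q (i+1)` the
polygon is cut off by the line `a i * x + b i * y = 1`. -/
structure Prof where
  N : ℕ
  q : ℕ → ℝ
  a : ℕ → ℝ
  b : ℕ → ℝ
  hq : ∀ i ≤ N, q i < q (i + 1)
  hl : ∀ i ≤ N, 0 < a i + b i * q i
  hr : ∀ i ≤ N, 0 < a i + b i * q (i + 1)

/-- the triangle of the `i`-th sector -/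
def Prof.tri (A : Prof) (i : ℕ) : Set E2 :=
  {p | 0 ≤ p 0 ∧ A.q i * p 0 ≤ p 1 ∧ p 1 ≤ A.q (i + 1) * p 0 ∧ A.a i * p 0 + A.b i * p 1 ≤ 1}

def Prof.reg (A : Prof) : Set E2 := {p | ∃ i ≤ A.N, p ∈ A.tri i}

/-- no two consecutive edges match on the common ray -/
def Prof.Strict (A : Prof) : Prop :=
  ∀ i < A.N, A.a i + A.b i * A.q (i + 1) ≠ A.a (i + 1) + A.b (i + 1) * A.q (i + 1)

def Prof.Weak (A : Prof) : Prop :=
  ∀ i < A.N, A.a i + A.b i * A.q (i + 1) ≠ A.a (i + 1) + A.b (i + 1) * A.q (i + 1) ∨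
    (A.a i = A.a (i + 1) ∧ A.b i = A.b (i + 1))

/-- first vertex of the `i`-th sector -/
noncomputable def Prof.pA (A : Prof) (i : ℕ) : E2 :=
  (A.a i + A.b i * A.q i)⁻¹ • !₂[1, A.q i]

/-- second vertex of the `i`-th sector -/
noncomputable def Prof.pB (A : Prof) (i : ℕ) : E2 :=
  (A.a i + A.b i * A.q (i + 1))⁻¹ • !₂[1, A.q (i + 1)]

/-- the vertices `0, pA 0, pB 0, pA 1, pB 1, …, pA N, pB N` and again `0` at the index `2N+3` -/
noncomputable def Prof.vt (A : Prof) (k : ℕ) : E2 :=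
  if k = 0 ∨ k = 2 * A.N + 3 then 0 else if k % 2 = 1 then A.pA (k / 2) else A.pB (k / 2 - 1)

noncomputable def Prof.ept (A : Prof) (k : ℕ) (s : ℝ) : E2 :=
  (1 - s) • A.vt k + s • A.vt (k + 1)

def S_STAR : Prop := ∀ A : Prof, IsStarShaped A.reg

def S_CPT : Prop := ∀ A : Prof, IsCompact A.reg ∧ (interior A.reg).Nonempty

def S_INJ : Prop := ∀ A : Prof, A.Strict → ∀ k ≤ 2 * A.N + 2, ∀ k' ≤ 2 * A.N + 2,
  ∀ s ∈ Ico (0 : ℝ) 1, ∀ s' ∈ Ico (0 : ℝ) 1, A.ept k s = A.ept k' s' → k = k' ∧ s = s'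

def S_OUT : Prop := ∀ A : Prof, ∀ k ≤ 2 * A.N + 2, ∀ s ∈ Ico (0 : ℝ) 1,
  A.ept k s ∈ frontier A.reg

def S_INN : Prop := ∀ A : Prof, ∀ p ∈ frontier A.reg, ∃ k ≤ 2 * A.N + 2, ∃ s ∈ Ico (0 : ℝ) 1,
  p = A.ept k s

/-- from CPT, INJ, OUT, INN -/
def S_POLY : Prop := ∀ A : Prof, A.Strict → IsPolygon A.reg

/-- from POLY, by merging sectors with the same line -/
def S_MERGE : Prop := ∀ A : Prof, A.Weak → IsPolygon A.reg

/-! ### comparing two profiles on a line -/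

/-- the part of the line `x + ℝ u` in the `i`-th triangle -/
def Prof.lin (A : Prof) (x u : E2) (i : ℕ) : Set ℝ := {s : ℝ | x + s • u ∈ A.tri i}

def S_DIFF : Prop := ∀ (A A' : Prof) (I : Finset ℕ) (x u : E2), A'.N = A.N → A'.q = A.q →
  (∀ i ∈ I, i ≤ A.N) → (∀ i ≤ A.N, i ∉ I → A'.a i = A.a i ∧ A'.b i = A.b i) →
  (∀ i ∈ I, u 1 - A.q i * u 0 ≠ 0 ∧ u 1 - A.q (i + 1) * u 0 ≠ 0) →
  xray u A'.reg x + ∑ i ∈ I, volume (A.lin x u i) = xray u A.reg x + ∑ i ∈ I, volume (A'.lin x u i)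

/-- length of `{s : s ξ ≤ ξ' ≤ s (ξ+1), s ≤ lam}` -/
noncomputable def Psi (ξ ξ' lam : ℝ) : ℝ≥0∞ :=
  volume {s : ℝ | s * ξ ≤ ξ' ∧ ξ' ≤ s * (ξ + 1) ∧ s ≤ lam}

def S_PSI : Prop := ∀ ξ ξ' lam : ℝ, Psi ξ ξ' lam ≠ ∞

/-- a line meets the truncated cone over `[X, X+1] × {y}` (in the sheared coordinates
`p 0`, `p 1 - j * p 0`) -/
def S_LINE : Prop := ∀ (x u : E2) (j y X lam : ℝ), 0 < y → u 1 - j * u 0 ≠ 0 →
  volume {s : ℝ | ((x + s • u) 1 - j * (x + s • u) 0) * X ≤ y * (x + s • u) 0 ∧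
      y * (x + s • u) 0 ≤ ((x + s • u) 1 - j * (x + s • u) 0) * (X + 1) ∧
      (x + s • u) 1 - j * (x + s • u) 0 ≤ lam * y} =
    ENNReal.ofReal (y / |u 1 - j * u 0|) *
      Psi (X - u 0 / (u 1 - j * u 0) * y) (x 0 - u 0 / (u 1 - j * u 0) * (x 1 - j * x 0)) lam

/-! ### the concrete polygons -/

/-- signs `+ - - +` -/
def s4 (d : ℕ) : ℤ := if d = 0 ∨ d = 3 then 1 else -1

/-- product of the signs of the `m` base-4 digits of `k` -/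
def sgn (m k : ℕ) : ℤ := ∏ l ∈ Finset.range m, s4 (k / 4 ^ l % 4)

/-- the offset `∑ (digit l of k) 4^l t_l` -/
noncomputable def off (t : ℕ → ℝ) (m k : ℕ) : ℝ :=
  ∑ l ∈ Finset.range m, ((k / 4 ^ l % 4 : ℕ) : ℝ) * 4 ^ l * t l

def S_OFF : Prop := ∀ (t : ℕ → ℝ) (m k : ℕ), (∀ l, |t l| ≤ 2) → |off t m k| ≤ 2 * 4 ^ m

/-- the key cancellation: each factor `1 - z - z^2 + z^3` kills the moments of order 0 and 1 -/
def S_SUM : Prop := ∀ (t : ℕ → ℝ) (m i : ℕ) (x0 : ℝ) (F : ℝ → ℝ), i < m →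
  ∑ k ∈ Finset.range (4 ^ m),
    (sgn m k : ℝ) * ((k : ℝ) + 1) * F (x0 + off t m k - t i * ((k : ℝ) + 1)) = 0

/-- pigeonhole: a shear parameter that is far from all directions of `S` -/
def S_PIG : Prop := ∀ (m : ℕ) (S : Finset E2), (∀ u ∈ S, ‖u‖ = 1) → S.card ≤ m →
  ∃ j ≤ m, ∃ t : ℕ → ℝ, (∀ l, |t l| ≤ 2) ∧ ∀ u ∈ S, u 1 - (j : ℝ) * u 0 ≠ 0 ∧
    ∃ i < m, u 0 / (u 1 - (j : ℝ) * u 0) = t i

noncomputable def DD (m : ℕ) : ℝ := 2 * 4 ^ m + 2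
noncomputable def XX (m : ℕ) : ℝ := (2 * 4 ^ m + 2) ^ 2
/-- height of patch `r` -/
noncomputable def yy (m r : ℕ) : ℝ := ((r % 4 ^ m : ℕ) : ℝ) + 1
/-- shear of patch `r` -/
noncomputable def jj (m r : ℕ) : ℝ := ((r / 4 ^ m : ℕ) : ℝ)
noncomputable def lo (m r : ℕ) : ℝ := jj m r + yy m r / (XX m + DD m)
noncomputable def hi (m r : ℕ) : ℝ := jj m r + yy m r / (XX m - DD m)
noncomputable def ml (m : ℕ) (w : ℕ → ℝ) (r : ℕ) : ℝ := jj m r + yy m r / (XX m + w r + 1)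
noncomputable def mh (m : ℕ) (w : ℕ → ℝ) (r : ℕ) : ℝ := jj m r + yy m r / (XX m + w r)

noncomputable def qq (m : ℕ) (w : ℕ → ℝ) (i : ℕ) : ℝ :=
  if i = 0 then -1 else if i % 4 = 0 then hi m (i / 4 - 1) else
    if i % 4 = 1 then lo m (i / 4) else if i % 4 = 2 then ml m w (i / 4) else mh m w (i / 4)

/-- height of the flat of `P` at patch `r` -/
noncomputable def cc (m r : ℕ) : ℝ := if sgn m (r % 4 ^ m) = 1 then yy m r else 2 * yy m r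

noncomputable def aa (m : ℕ) (c' : ℕ → ℝ) (i : ℕ) : ℝ :=
  if i % 4 = 0 then 1 else if i % 4 = 2 then - jj m (i / 4) / c' (i / 4)
    else - jj m (i / 4) / cc m (i / 4)

noncomputable def bb (m : ℕ) (c' : ℕ → ℝ) (i : ℕ) : ℝ :=
  if i % 4 = 0 then 0 else if i % 4 = 2 then 1 / c' (i / 4) else 1 / cc m (i / 4)

/-- number of patches -/
def MM (m : ℕ) : ℕ := (m + 1) * 4 ^ m

/-- admissible data: offsets `w` and heights `c'` of the middle parts -/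
def Adm (m : ℕ) (w c' : ℕ → ℝ) : Prop :=
  (∀ r, |w r| ≤ 2 * 4 ^ m) ∧ (∀ r, c' r = yy m r ∨ c' r = 2 * yy m r)

def S_Q : Prop := ∀ (m : ℕ) (w c' : ℕ → ℝ), Adm m w c' → ∀ i ≤ 4 * MM m, qq m w i < qq m w (i + 1)

def S_L : Prop := ∀ (m : ℕ) (w c' : ℕ → ℝ), Adm m w c' → ∀ i ≤ 4 * MM m,
  0 < aa m c' i + bb m c' i * qq m w i ∧ 0 < aa m c' i + bb m c' i * qq m w (i + 1)

/-- the profile -/
noncomputable def prof (hQ : S_Q) (hL : S_L) (m : ℕ) (w c' : ℕ → ℝ) (h : Adm m w c') : Prof where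
  N := 4 * MM m
  q := qq m w
  a := aa m c'
  b := bb m c'
  hq := hQ m w c' h
  hl := fun i hi => (hL m w c' h i hi).1
  hr := fun i hi => (hL m w c' h i hi).2

def S_WEAK : Prop := ∀ (hQ : S_Q) (hL : S_L) (m : ℕ) (w c' : ℕ → ℝ) (h : Adm m w c'),
  (prof hQ hL m w c' h).Weak

/-- for `c' = cc` the region does not depend on the offsets -/
def S_IND : Prop := ∀ (hQ : S_Q) (hL : S_L) (m : ℕ) (w w' : ℕ → ℝ) (h : Adm m w (cc m))
  (h' : Adm m w' (cc m)), (prof hQ hL m w (cc m) h).reg = (prof hQ hL m w' (cc m) h').reg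

/-- the offsets for the active system `j` -/
noncomputable def ww (m j : ℕ) (t : ℕ → ℝ) (r : ℕ) : ℝ :=
  if r / 4 ^ m = j then off t m (r % 4 ^ m) else 0

/-- the flipped heights of the middle parts for the active system `j` -/
noncomputable def cf (m j : ℕ) (r : ℕ) : ℝ :=
  if r / 4 ^ m = j then (if sgn m (r % 4 ^ m) = 1 then 2 * yy m r else yy m r) else cc m r

def S_ADM : Prop := (∀ (m : ℕ) (w : ℕ → ℝ), (∀ r, |w r| ≤ 2 * 4 ^ m) → Adm m w (cc m)) ∧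
  (∀ (m j : ℕ) (w : ℕ → ℝ), (∀ r, |w r| ≤ 2 * 4 ^ m) → Adm m w (cf m j)) ∧
  (∀ (m j : ℕ) (t : ℕ → ℝ), (∀ l, |t l| ≤ 2) → ∀ r, |ww m j t r| ≤ 2 * 4 ^ m)

def S_NE : Prop := ∀ (hQ : S_Q) (hL : S_L) (m j : ℕ) (w : ℕ → ℝ) (h : Adm m w (cc m))
  (h' : Adm m w (cf m j)), j ≤ m →
  (prof hQ hL m w (cf m j) h').reg ≠ (prof hQ hL m w (cc m) h).reg

/-- the middle triangle of an active patch on a line -/
def S_MID : Prop := ∀ (hQ : S_Q) (hL : S_L) (m j k : ℕ) (w c' : ℕ → ℝ) (h : Adm m w c')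
  (x u : E2) (lam : ℝ), k < 4 ^ m → (lam = 1 ∨ lam = 2) →
  c' (j * 4 ^ m + k) = lam * ((k : ℝ) + 1) → u 1 - (j : ℝ) * u 0 ≠ 0 →
  volume ((prof hQ hL m w c' h).lin x u (4 * (j * 4 ^ m + k) + 2)) =
    ENNReal.ofReal (((k : ℝ) + 1) / |u 1 - (j : ℝ) * u 0|) *
      Psi (XX m + w (j * 4 ^ m + k) - u 0 / (u 1 - (j : ℝ) * u 0) * ((k : ℝ) + 1))
        (x 0 - u 0 / (u 1 - (j : ℝ) * u 0) * (x 1 - (j : ℝ) * x 0)) lam

/-- slopes of the middle parts are not parallel to `u` -/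
def S_NPAR : Prop := ∀ (m j k : ℕ) (w : ℕ → ℝ) (u : E2), (∀ r, |w r| ≤ 2 * 4 ^ m) → k < 4 ^ m →
  u 1 - (j : ℝ) * u 0 ≠ 0 → |u 0 / (u 1 - (j : ℝ) * u 0)| ≤ 2 →
  u 1 - qq m w (4 * (j * 4 ^ m + k) + 2) * u 0 ≠ 0 ∧
    u 1 - qq m w (4 * (j * 4 ^ m + k) + 2 + 1) * u 0 ≠ 0

/-- the X-rays agree (from DIFF, MID, NPAR, SUM, PSI) -/
def S_XR : Prop := ∀ (hQ : S_Q) (hL : S_L) (m j : ℕ) (t : ℕ → ℝ) (u x : E2)
  (h : Adm m (ww m j t) (cc m)) (h' : Adm m (ww m j t) (cf m j)), j ≤ m → (∀ l, |t l| ≤ 2) →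
  u 1 - (j : ℝ) * u 0 ≠ 0 → (∃ i < m, u 0 / (u 1 - (j : ℝ) * u 0) = t i) →
  xray u (prof hQ hL m (ww m j t) (cf m j) h').reg x =
    xray u (prof hQ hL m (ww m j t) (cc m) h).reg x

end Pool.H183.SX
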