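import Pool.Agent.H183.SX.Defs

open MeasureTheory Set
open scoped ENNReal

namespace Pool.H183.SX

theorem IND_mono {q : ℕ → ℝ} {N : ℕ} (h : ∀ i ≤ N, q i < q (i + 1)) :
    ∀ k ≤ N + 1, ∀ i ≤ k, q i ≤ q k := by
  intro k
  induction k with
  | zero =>
    intro _ i hi
    rw [Nat.le_zero.mp hi]
  | succ k ih =>
    intro hk i hi
    rcases hi.eq_or_lt with h1 | h1
    · rw [h1]
    · exact (ih (by omega) i (by omega)).trans (h k (by omega)).le

theorem IND_q0 (m : ℕ) (w w' : ℕ → ℝ) (i : ℕ) (hi : i % 4 = 0 ∨ i % 4 = 1) :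
    qq m w i = qq m w' i := by
  unfold qq
  by_cases h0 : i = 0
  · rw [if_pos h0, if_pos h0]
  · rw [if_neg h0, if_neg h0]
    rcases hi with h | h
    · rw [if_pos h, if_pos h]
    · rw [if_neg (by omega), if_pos h, if_neg (by omega), if_pos h]

theorem IND_ab (m : ℕ) (i k : ℕ) (hi : i % 4 ≠ 0) (hk : k % 4 ≠ 0) (hik : i / 4 = k / 4) :
    aa m (cc m) i = aa m (cc m) k ∧ bb m (cc m) i = bb m (cc m) k := by
  have h1 : ∀ i, i % 4 ≠ 0 → aa m (cc m) i = - jj m (i / 4) / cc m (i / 4) ∧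
      bb m (cc m) i = 1 / cc m (i / 4) := by
    intro i hi
    unfold aa bb
    rw [if_neg hi, if_neg hi]
    by_cases h2 : i % 4 = 2
    · rw [if_pos h2, if_pos h2]
      exact ⟨rfl, rfl⟩
    · rw [if_neg h2, if_neg h2]
      exact ⟨rfl, rfl⟩
  rw [(h1 i hi).1, (h1 i hi).2, (h1 k hk).1, (h1 k hk).2, hik]
  exact ⟨rfl, rfl⟩

theorem IND_sub (hQ : S_Q) (hL : S_L) (m : ℕ) (w w' : ℕ → ℝ) (h : Adm m w (cc m))
    (h' : Adm m w' (cc m)) :
    (prof hQ hL m w (cc m) h).reg ⊆ (prof hQ hL m w' (cc m) h').reg := by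
  rintro p ⟨i, hi, t0, t1, t2, t3⟩
  change i ≤ 4 * MM m at hi
  change qq m w i * p 0 ≤ p 1 at t1
  change p 1 ≤ qq m w (i + 1) * p 0 at t2
  change aa m (cc m) i * p 0 + bb m (cc m) i * p 1 ≤ 1 at t3
  by_cases h0 : i % 4 = 0
  · refine ⟨i, hi, t0, ?_, ?_, t3⟩
    · show qq m w' i * p 0 ≤ p 1
      rw [← IND_q0 m w w' i (Or.inl h0)]
      exact t1
    · show p 1 ≤ qq m w' (i + 1) * p 0
      rw [← IND_q0 m w w' (i + 1) (Or.inr (by omega))]
      exact t2
  · obtain ⟨r, hr⟩ : ∃ r, r = i / 4 := ⟨_, rfl⟩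
    have hmono := IND_mono (hQ m w (cc m) h)
    have hlow : qq m w' (4 * r + 1) * p 0 ≤ p 1 := by
      rw [← IND_q0 m w w' (4 * r + 1) (Or.inr (by omega))]
      have h2 := hmono i (by omega) (4 * r + 1) (by omega)
      exact (mul_le_mul_of_nonneg_right h2 t0).trans t1
    have hup : p 1 ≤ qq m w' (4 * r + 3 + 1) * p 0 := by
      rw [← IND_q0 m w w' (4 * r + 3 + 1) (Or.inl (by omega))]
      have h2 := hmono (4 * r + 3 + 1) (by omega) (i + 1) (by omega)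
      exact t2.trans (mul_le_mul_of_nonneg_right h2 t0)
    have hab : ∀ k, k % 4 ≠ 0 → k / 4 = r → aa m (cc m) k * p 0 + bb m (cc m) k * p 1 ≤ 1 := by
      intro k hk hkr
      obtain ⟨e1, e2⟩ := IND_ab m i k h0 hk (by omega)
      rw [← e1, ← e2]
      exact t3
    rcases le_total (p 1) (qq m w' (4 * r + 1 + 1) * p 0) with h1 | h1
    · exact ⟨4 * r + 1, show _ ≤ 4 * MM m by omega, t0, hlow, h1,
        hab _ (by omega) (by omega)⟩
    · rcases le_total (p 1) (qq m w' (4 * r + 2 + 1) * p 0) with h2 | h2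
      · exact ⟨4 * r + 2, show _ ≤ 4 * MM m by omega, t0, h1, h2,
          hab _ (by omega) (by omega)⟩
      · exact ⟨4 * r + 3, show _ ≤ 4 * MM m by omega, t0, h2, hup,
          hab _ (by omega) (by omega)⟩

theorem IND_ok : S_IND := fun hQ hL m w w' h h' =>
  Subset.antisymm (IND_sub hQ hL m w w' h h') (IND_sub hQ hL m w' w h' h)

end Pool.H183.SX
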