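import Pool.Agent.H183.SX.Defs

/-! INJ: the boundary curve is injective -/

open MeasureTheory Set
open scoped ENNReal

namespace Pool.H183.SX

namespace INJH

variable (A : Prof)

noncomputable def al (i : ℕ) : ℝ := (A.a i + A.b i * A.q i)⁻¹
noncomputable def be (i : ℕ) : ℝ := (A.a i + A.b i * A.q (i + 1))⁻¹

theorem al_pos {i : ℕ} (h : i ≤ A.N) : 0 < al A i := inv_pos.2 (A.hl i h)
theorem be_pos {i : ℕ} (h : i ≤ A.N) : 0 < be A i := inv_pos.2 (A.hr i h)

theorem qlt : ∀ j i : ℕ, i < j → j ≤ A.N + 1 → A.q i < A.q j := by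
  intro j
  induction j with
  | zero => intro i h; omega
  | succ j ih =>
    intro i h hj
    have h1 := A.hq j (by omega)
    rcases Nat.lt_succ_iff_lt_or_eq.1 h with h2 | h2
    · exact (ih i h2 (by omega)).trans h1
    · rw [h2]; exact h1

theorem qle {i j : ℕ} (h : i ≤ j) (hj : j ≤ A.N + 1) : A.q i ≤ A.q j := by
  rcases Nat.lt_or_eq_of_le h with h1 | h1
  · exact (qlt A j i h1 hj).le
  · rw [h1]

theorem vt0 : A.vt 0 = 0 := by simp [Prof.vt]

theorem vtl : A.vt (2 * A.N + 3) = 0 := by simp [Prof.vt]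

theorem vtA {i : ℕ} (h : i ≤ A.N) : A.vt (2 * i + 1) = A.pA i := by
  have h1 : ¬ (2 * i + 1 = 0 ∨ 2 * i + 1 = 2 * A.N + 3) := by omega
  have h2 : (2 * i + 1) % 2 = 1 := by omega
  have h3 : (2 * i + 1) / 2 = i := by omega
  rw [Prof.vt, if_neg h1, if_pos h2, h3]

theorem vtB (i : ℕ) : A.vt (2 * i + 2) = A.pB i := by
  have h1 : ¬ (2 * i + 2 = 0 ∨ 2 * i + 2 = 2 * A.N + 3) := by omega
  have h2 : ¬ (2 * i + 2) % 2 = 1 := by omega
  have h3 : (2 * i + 2) / 2 - 1 = i := by omega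
  rw [Prof.vt, if_neg h1, if_neg h2, h3]

theorem pA0 (i : ℕ) : (A.pA i) 0 = al A i := by simp [Prof.pA, al]
theorem pA1 (i : ℕ) : (A.pA i) 1 = al A i * A.q i := by simp [Prof.pA, al]
theorem pB0 (i : ℕ) : (A.pB i) 0 = be A i := by simp [Prof.pB, be]
theorem pB1 (i : ℕ) : (A.pB i) 1 = be A i * A.q (i + 1) := by simp [Prof.pB, be]

theorem e0 (s : ℝ) : (A.ept 0 s) 0 = s * al A 0 ∧ (A.ept 0 s) 1 = s * (al A 0 * A.q 0) := by
  have h1 : A.vt (0 + 1) = A.pA 0 := vtA A (i := 0) (Nat.zero_le _)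
  simp only [Prof.ept, vt0, h1, PiLp.add_apply, PiLp.smul_apply, smul_eq_mul, PiLp.zero_apply,
    mul_zero, zero_add, pA0, pA1, and_self]

theorem e1 {i : ℕ} (h : i ≤ A.N) (s : ℝ) :
    (A.ept (2 * i + 1) s) 0 = (1 - s) * al A i + s * be A i ∧
    (A.ept (2 * i + 1) s) 1 = (1 - s) * (al A i * A.q i) + s * (be A i * A.q (i + 1)) := by
  have h1 : A.vt (2 * i + 1 + 1) = A.pB i := vtB A i
  simp only [Prof.ept, vtA A h, h1, PiLp.add_apply, PiLp.smul_apply, smul_eq_mul, pA0, pA1,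
    pB0, pB1, and_self]

theorem e2 {i : ℕ} (h : i < A.N) (s : ℝ) :
    (A.ept (2 * i + 2) s) 0 = (1 - s) * be A i + s * al A (i + 1) ∧
    (A.ept (2 * i + 2) s) 1 = (1 - s) * (be A i * A.q (i + 1)) +
      s * (al A (i + 1) * A.q (i + 1)) := by
  have h1 : A.vt (2 * i + 2 + 1) = A.pA (i + 1) := vtA A (i := i + 1) h
  simp only [Prof.ept, vtB A i, h1, PiLp.add_apply, PiLp.smul_apply, smul_eq_mul, pA0, pA1,
    pB0, pB1, and_self]

theorem e3 (s : ℝ) : (A.ept (2 * A.N + 2) s) 0 = (1 - s) * be A A.N ∧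
    (A.ept (2 * A.N + 2) s) 1 = (1 - s) * (be A A.N * A.q (A.N + 1)) := by
  have h1 : A.vt (2 * A.N + 2 + 1) = 0 := vtl A
  simp only [Prof.ept, vtB A A.N, h1, PiLp.add_apply, PiLp.smul_apply, smul_eq_mul,
    PiLp.zero_apply, mul_zero, add_zero, pB0, pB1, and_self]

/-- the four kinds of edges -/
theorem kinds {k : ℕ} (hk : k ≤ 2 * A.N + 2) : k = 0 ∨ (∃ i ≤ A.N, k = 2 * i + 1) ∨
    (∃ i < A.N, k = 2 * i + 2) ∨ k = 2 * A.N + 2 := by
  rcases Nat.even_or_odd' k with ⟨j, hj | hj⟩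
  · rcases Nat.eq_zero_or_pos j with h0 | h0
    · left; omega
    · right; right
      by_cases h1 : j = A.N + 1
      · right; omega
      · left; exact ⟨j - 1, by omega, by omega⟩
  · right; left; exact ⟨j, by omega, hj⟩

theorem inv {k : ℕ} (hk : k ≤ 2 * A.N + 2) {s : ℝ} (hs : s ∈ Ico (0 : ℝ) 1) :
    (k ≠ 0 → 0 < (A.ept k s) 0) ∧ A.q (k / 2) * (A.ept k s) 0 ≤ (A.ept k s) 1 ∧
    (k % 2 = 1 → (A.ept k s) 1 < A.q ((k + 1) / 2) * (A.ept k s) 0) ∧
    (k % 2 = 0 → (A.ept k s) 1 = A.q (k / 2) * (A.ept k s) 0) ∧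
    (k % 2 = 1 → (A.ept k s) 1 = A.q (k / 2) * (A.ept k s) 0 → s = 0) := by
  have hs0 : 0 ≤ s := hs.1
  have hs1 : 0 < 1 - s := by linarith [hs.2]
  rcases kinds A hk with h | ⟨i, hi, h⟩ | ⟨i, hi, h⟩ | h
  · subst h
    obtain ⟨h0, h1⟩ := e0 A s
    refine ⟨fun h => absurd rfl h, ?_, fun h => by omega, fun _ => ?_, fun h => by omega⟩
    · rw [h0, h1]; exact le_of_eq (by norm_num; ring)
    · rw [h0, h1]; norm_num; ring
  · subst h
    obtain ⟨h0, h1⟩ := e1 A hi s
    have ha := al_pos A hi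
    have hb := be_pos A hi
    have hq := A.hq i hi
    have d1 : (2 * i + 1) / 2 = i := by omega
    have d2 : (2 * i + 1 + 1) / 2 = i + 1 := by omega
    have k1 : (A.ept (2 * i + 1) s) 1 - A.q i * (A.ept (2 * i + 1) s) 0 =
        s * (be A i * (A.q (i + 1) - A.q i)) := by rw [h0, h1]; ring
    have k2 : A.q (i + 1) * (A.ept (2 * i + 1) s) 0 - (A.ept (2 * i + 1) s) 1 =
        (1 - s) * (al A i * (A.q (i + 1) - A.q i)) := by rw [h0, h1]; ring
    have hd : 0 < A.q (i + 1) - A.q i := by linarith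
    rw [d1, d2]
    refine ⟨fun _ => ?_, ?_, fun _ => ?_, fun h => by omega, fun _ h => ?_⟩
    · rw [h0]; positivity
    · have : 0 ≤ s * (be A i * (A.q (i + 1) - A.q i)) := by positivity
      linarith
    · have : 0 < (1 - s) * (al A i * (A.q (i + 1) - A.q i)) := by positivity
      linarith
    · rw [h, sub_self] at k1
      have : 0 < be A i * (A.q (i + 1) - A.q i) := by positivity
      rcases mul_eq_zero.1 k1.symm with h5 | h5
      · exact h5
      · exact absurd h5 this.ne'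
  · subst h
    obtain ⟨h0, h1⟩ := e2 A hi s
    have ha := al_pos A (i := i + 1) hi
    have hb := be_pos A (i := i) hi.le
    have d1 : (2 * i + 2) / 2 = i + 1 := by omega
    rw [d1]
    have k1 : (A.ept (2 * i + 2) s) 1 = A.q (i + 1) * (A.ept (2 * i + 2) s) 0 := by
      rw [h0, h1]; ring
    refine ⟨fun _ => ?_, k1.ge, fun h => by omega, fun _ => k1, fun h => by omega⟩
    rw [h0]; positivity
  · subst h
    obtain ⟨h0, h1⟩ := e3 A s
    have hb := be_pos A (i := A.N) le_rfl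
    have d1 : (2 * A.N + 2) / 2 = A.N + 1 := by omega
    rw [d1]
    have k1 : (A.ept (2 * A.N + 2) s) 1 = A.q (A.N + 1) * (A.ept (2 * A.N + 2) s) 0 := by
      rw [h0, h1]; ring
    refine ⟨fun _ => ?_, k1.ge, fun h => by omega, fun _ => k1, fun h => by omega⟩
    rw [h0]; positivity

theorem al_ne_be (hA : A.Strict) {i : ℕ} (h : i < A.N) : be A i ≠ al A (i + 1) := by
  intro h1
  unfold al be at h1
  exact hA i h (inv_injective h1)

theorem main_lt (hA : A.Strict) {k k' : ℕ} (hk' : k' ≤ 2 * A.N + 2) (hkk : k < k') {s s' : ℝ}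
    (hs : s ∈ Ico (0 : ℝ) 1) (hs' : s' ∈ Ico (0 : ℝ) 1) (h : A.ept k s = A.ept k' s') : False := by
  obtain ⟨-, -, i3, i4, -⟩ := inv A (hkk.le.trans hk') hs
  obtain ⟨j1, j2, -, -, j5⟩ := inv A hk' hs'
  rw [← h] at j1 j2 j5
  have hp := j1 (by omega)
  rcases Nat.mod_two_eq_zero_or_one k with hm | hm
  · have h1 := i4 hm
    rcases Nat.lt_or_ge (k / 2) (k' / 2) with h2 | h2
    · have h3 := qlt A (k' / 2) (k / 2) h2 (by omega)
      have h4 := mul_lt_mul_of_pos_right h3 hp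
      linarith
    · have h3 : k' = k + 1 := by omega
      have h4 : k' / 2 = k / 2 := by omega
      rw [h4] at j5
      have hs0 := j5 (by omega) h1
      subst hs0
      subst h3
      have hs1 : 0 < 1 - s := by linarith [hs.2]
      rcases kinds A (hkk.le.trans hk') with h5 | ⟨i, hi, h5⟩ | ⟨i, hi, h5⟩ | h5
      · subst h5
        have e := congrArg (fun p : E2 => p 0) h
        have e' : (A.ept 0 s) 0 = (A.ept (2 * 0 + 1) 0) 0 := e
        rw [(e0 A s).1, (e1 A (i := 0) (Nat.zero_le _) 0).1] at e'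
        have ha := al_pos A (i := 0) (Nat.zero_le _)
        have : (1 - s) * al A 0 = 0 := by linarith
        exact absurd this (by positivity)
      · omega
      · subst h5
        have e := congrArg (fun p : E2 => p 0) h
        have e' : (A.ept (2 * i + 2) s) 0 = (A.ept (2 * (i + 1) + 1) 0) 0 := e
        rw [(e2 A hi s).1, (e1 A (i := i + 1) hi 0).1] at e'
        have : (1 - s) * (be A i - al A (i + 1)) = 0 := by linarith
        rcases mul_eq_zero.1 this with h6 | h6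
        · linarith
        · exact al_ne_be A hA hi (sub_eq_zero.1 h6)
      · omega
  · have h1 := i3 hm
    have h2 : A.q ((k + 1) / 2) ≤ A.q (k' / 2) := qle A (by omega) (by omega)
    have h3 := mul_le_mul_of_nonneg_right h2 hp.le
    linarith

theorem main_eq (hA : A.Strict) {k : ℕ} (hk : k ≤ 2 * A.N + 2) {s s' : ℝ}
    (h : A.ept k s = A.ept k s') : s = s' := by
  have h0 : (A.ept k s) 0 = (A.ept k s') 0 := congrArg (fun p : E2 => p 0) h
  have h1 : (A.ept k s) 1 = (A.ept k s') 1 := congrArg (fun p : E2 => p 1) h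
  rcases kinds A hk with h5 | ⟨i, hi, h5⟩ | ⟨i, hi, h5⟩ | h5
  · subst h5
    rw [(e0 A s).1, (e0 A s').1] at h0
    exact mul_right_cancel₀ (al_pos A (i := 0) (Nat.zero_le _)).ne' h0
  · subst h5
    rw [(e1 A hi s).1, (e1 A hi s').1] at h0
    rw [(e1 A hi s).2, (e1 A hi s').2] at h1
    have hb := be_pos A hi
    have hq := A.hq i hi
    have hd : 0 < be A i * (A.q (i + 1) - A.q i) := mul_pos hb (by linarith)
    apply mul_right_cancel₀ hd.ne'
    have h2 := congrArg (fun t => A.q i * t) h0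
    simp only at h2
    linarith
  · subst h5
    rw [(e2 A hi s).1, (e2 A hi s').1] at h0
    have hne : be A i - al A (i + 1) ≠ 0 := sub_ne_zero.2 (al_ne_be A hA hi)
    apply mul_right_cancel₀ hne
    linarith
  · subst h5
    rw [(e3 A s).1, (e3 A s').1] at h0
    have := mul_right_cancel₀ (be_pos A (i := A.N) le_rfl).ne' h0
    linarith

end INJH

open INJH in
theorem INJ_ok : S_INJ := by
  intro A hA k hk k' hk' s hs s' hs' h
  rcases lt_trichotomy k k' with h1 | h1 | h1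
  · exact absurd h (fun h => main_lt A hA hk' h1 hs hs' h)
  · subst h1
    exact ⟨rfl, main_eq A hA hk h⟩
  · exact absurd h (fun h => main_lt A hA hk h1 hs' hs h.symm)

end Pool.H183.SX
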