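import Pool.Agent.H183.SX.Defs

open MeasureTheory Set
open scoped ENNReal

namespace Pool.H183.SX

theorem INN_q (A : Prof) : ∀ j, j ≤ A.N + 1 → ∀ i < j, A.q i < A.q j := by
  intro j
  induction j with
  | zero => intro _ i hi; omega
  | succ n ih =>
    intro hn i hi
    rcases Nat.lt_succ_iff_lt_or_eq.1 hi with h | h
    · exact (ih (by omega) i h).trans (A.hq n (by omega))
    · subst h; exact A.hq i (by omega)

theorem INN_vt0 (A : Prof) : A.vt 0 = 0 := by simp [Prof.vt]
theorem INN_vtl (A : Prof) : A.vt (2 * A.N + 3) = 0 := by simp [Prof.vt]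
theorem INN_vto (A : Prof) (i : ℕ) (hi : i ≤ A.N) : A.vt (2 * i + 1) = A.pA i := by
  unfold Prof.vt
  rw [if_neg (by omega), if_pos (by omega)]
  congr 1
  omega
theorem INN_vte (A : Prof) (i : ℕ) (hi : i ≤ A.N) : A.vt (2 * i + 2) = A.pB i := by
  unfold Prof.vt
  rw [if_neg (by omega), if_neg (by omega)]
  congr 1
  omega

theorem INN_ext {p p' : E2} (h0 : p 0 = p' 0) (h1 : p 1 = p' 1) : p = p' := by
  ext i
  fin_cases i
  · exact h0
  · exact h1

theorem INN_pA0 (A : Prof) (i : ℕ) : A.pA i 0 = (A.a i + A.b i * A.q i)⁻¹ := by simp [Prof.pA]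
theorem INN_pA1 (A : Prof) (i : ℕ) : A.pA i 1 = (A.a i + A.b i * A.q i)⁻¹ * A.q i := by
  simp [Prof.pA]
theorem INN_pB0 (A : Prof) (i : ℕ) : A.pB i 0 = (A.a i + A.b i * A.q (i + 1))⁻¹ := by
  simp [Prof.pB]
theorem INN_pB1 (A : Prof) (i : ℕ) :
    A.pB i 1 = (A.a i + A.b i * A.q (i + 1))⁻¹ * A.q (i + 1) := by
  simp [Prof.pB]

theorem INN_c0 : Continuous (fun p : E2 => p 0) := by fun_prop
theorem INN_c1 : Continuous (fun p : E2 => p 1) := by fun_prop

/-- sectors containing a point of positive abscissa on the ray of slope `q n` -/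
theorem INN_sector (A : Prof) (p : E2) (hp : 0 < p 0) (n i : ℕ) (hn : n ≤ A.N + 1) (hi : i ≤ A.N)
    (h : p 1 = A.q n * p 0) (h1 : A.q i * p 0 ≤ p 1) (h2 : p 1 ≤ A.q (i + 1) * p 0) :
    i = n ∨ i + 1 = n := by
  rw [h] at h1 h2
  have h1' := le_of_mul_le_mul_right h1 hp
  have h2' := le_of_mul_le_mul_right h2 hp
  by_contra hcon
  push Not at hcon
  rcases lt_trichotomy i n with hlt | heq | hgt
  · have : i + 1 < n := by omega
    exact absurd (INN_q A n hn (i + 1) this) (not_lt.2 h2')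
  · exact hcon.1 heq
  · exact absurd (INN_q A i (by omega) n hgt) (not_lt.2 h1')

theorem INN_ray0 (A : Prof) (p : E2) (hp : 0 < p 0) (h : p 1 = A.q 0 * p 0)
    (hr : p ∈ A.reg) : ∃ k ≤ 2 * A.N + 2, ∃ s ∈ Ico (0 : ℝ) 1, p = A.ept k s := by
  obtain ⟨i, hi, _, h1, h2, h3⟩ := hr
  have := INN_sector A p hp 0 i (by omega) hi h h1 h2
  have hi0 : i = 0 := by omega
  subst hi0
  set γ := A.a 0 + A.b 0 * A.q 0 with hγ
  have hγ0 : 0 < γ := A.hl 0 (by omega)
  have h3' : p 0 * γ ≤ 1 := by rw [hγ]; rw [h] at h3; linarith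
  rcases lt_or_eq_of_le h3' with hlt | heq
  · refine ⟨0, by omega, p 0 * γ, ⟨by positivity, hlt⟩, ?_⟩
    have hv : A.vt (0 + 1) = A.pA 0 := INN_vto A 0 (by omega)
    unfold Prof.ept
    rw [INN_vt0, hv]
    apply INN_ext
    · simp only [PiLp.add_apply, PiLp.smul_apply, smul_eq_mul, PiLp.zero_apply, INN_pA0]
      rw [← hγ]; field_simp; ring
    · simp only [PiLp.add_apply, PiLp.smul_apply, smul_eq_mul, PiLp.zero_apply, INN_pA1]
      rw [← hγ, h]; field_simp; ring
  · refine ⟨1, by omega, 0, ⟨le_rfl, one_pos⟩, ?_⟩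
    have hv : A.vt 1 = A.pA 0 := INN_vto A 0 (by omega)
    unfold Prof.ept
    rw [hv]
    have hp0 : p 0 = γ⁻¹ := by field_simp; linarith
    apply INN_ext
    · simp only [PiLp.add_apply, PiLp.smul_apply, smul_eq_mul, INN_pA0]
      rw [← hγ, hp0]; ring
    · simp only [PiLp.add_apply, PiLp.smul_apply, smul_eq_mul, INN_pA1]
      rw [← hγ, h, hp0]; ring

theorem INN_rayL (A : Prof) (p : E2) (hp : 0 < p 0) (h : p 1 = A.q (A.N + 1) * p 0)
    (hr : p ∈ A.reg) : ∃ k ≤ 2 * A.N + 2, ∃ s ∈ Ico (0 : ℝ) 1, p = A.ept k s := by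
  obtain ⟨i, hi, _, h1, h2, h3⟩ := hr
  have := INN_sector A p hp (A.N + 1) i (by omega) hi h h1 h2
  have hi0 : i = A.N := by omega
  subst hi0
  set γ := A.a A.N + A.b A.N * A.q (A.N + 1) with hγ
  have hγ0 : 0 < γ := A.hr A.N le_rfl
  have h3' : p 0 * γ ≤ 1 := by rw [hγ]; rw [h] at h3; linarith
  have hpos : 0 < p 0 * γ := by positivity
  refine ⟨2 * A.N + 2, le_rfl, 1 - p 0 * γ, ⟨by linarith, by linarith⟩, ?_⟩
  unfold Prof.ept
  rw [show 2 * A.N + 2 + 1 = 2 * A.N + 3 from rfl, INN_vtl, INN_vte A A.N le_rfl]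
  apply INN_ext
  · simp only [PiLp.add_apply, PiLp.smul_apply, smul_eq_mul, PiLp.zero_apply, INN_pB0]
    rw [← hγ]; field_simp; ring
  · simp only [PiLp.add_apply, PiLp.smul_apply, smul_eq_mul, PiLp.zero_apply, INN_pB1]
    rw [← hγ, h]; field_simp; ring

theorem INN_rayM (A : Prof) (p : E2) (hp : 0 < p 0) (i : ℕ) (hi : i < A.N)
    (h : p 1 = A.q (i + 1) * p 0)
    (hr : p ∈ A.reg) (hni : p ∉ interior A.reg) :
    ∃ k ≤ 2 * A.N + 2, ∃ s ∈ Ico (0 : ℝ) 1, p = A.ept k s := by
  set γ := A.a i + A.b i * A.q (i + 1) with hγ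
  set δ := A.a (i + 1) + A.b (i + 1) * A.q (i + 1) with hδ
  have hγ0 : 0 < γ := A.hr i hi.le
  have hδ0 : 0 < δ := A.hl (i + 1) hi
  have hor : p 0 * γ ≤ 1 ∨ p 0 * δ ≤ 1 := by
    obtain ⟨i', hi', _, h1, h2, h3⟩ := hr
    rcases INN_sector A p hp (i + 1) i' (by omega) hi' h h1 h2 with h4 | h4
    · right; subst h4; rw [hδ]; rw [h] at h3; linarith
    · left
      have : i' = i := by omega
      subst this; rw [hγ]; rw [h] at h3; linarith
  have hnand : ¬ (p 0 * γ < 1 ∧ p 0 * δ < 1) := by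
    rintro ⟨hg1, hg2⟩
    apply hni
    rw [mem_interior]
    refine ⟨{p' : E2 | 0 < p' 0 ∧ A.q i * p' 0 < p' 1 ∧ p' 1 < A.q (i + 1 + 1) * p' 0 ∧
      A.a i * p' 0 + A.b i * p' 1 < 1 ∧ A.a (i + 1) * p' 0 + A.b (i + 1) * p' 1 < 1}, ?_, ?_, ?_⟩
    · rintro p' ⟨h0, h1, h2, h3, h4⟩
      rcases le_total (p' 1) (A.q (i + 1) * p' 0) with hle | hle
      · exact ⟨i, hi.le, h0.le, h1.le, hle, h3.le⟩
      · exact ⟨i + 1, hi, h0.le, hle, h2.le, h4.le⟩
    · have c0 := INN_c0
      have c1 := INN_c1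
      refine (isOpen_lt continuous_const c0).inter ((isOpen_lt (continuous_const.mul c0) c1).inter
        ((isOpen_lt c1 (continuous_const.mul c0)).inter ((isOpen_lt
        ((continuous_const.mul c0).add (continuous_const.mul c1)) continuous_const).inter
        (isOpen_lt ((continuous_const.mul c0).add (continuous_const.mul c1)) continuous_const))))
    · have e1 := A.hq i hi.le
      have e2 := A.hq (i + 1) hi
      refine ⟨hp, ?_, ?_, ?_, ?_⟩
      · rw [h]; exact mul_lt_mul_of_pos_right e1 hp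
      · rw [h]; exact mul_lt_mul_of_pos_right e2 hp
      · rw [h]; rw [hγ] at hg1; linarith
      · rw [h]; rw [hδ] at hg2; linarith
  have hAB : p 0 = δ⁻¹ ∨ ∃ s ∈ Ico (0 : ℝ) 1, p 0 = (1 - s) * γ⁻¹ + s * δ⁻¹ := by
    by_cases hx : p 0 = δ⁻¹
    · exact Or.inl hx
    · right
      have hne : δ⁻¹ - γ⁻¹ ≠ 0 := by
        intro h0
        have hgd : γ = δ := by
          have : δ⁻¹ = γ⁻¹ := by linarith
          exact (inv_inj.1 this).symm
        rw [← hgd] at hor hnand hx
        have h5 : p 0 * γ ≤ 1 := by tauto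
        have h6 : ¬ p 0 * γ < 1 := by tauto
        apply hx
        have h7 : p 0 * γ = 1 := le_antisymm h5 (not_lt.1 h6)
        field_simp; linarith
      have hx1 : p 0 * δ ≠ 1 := by
        intro h1
        apply hx
        field_simp; linarith
      refine ⟨(p 0 - γ⁻¹) / (δ⁻¹ - γ⁻¹), ?_, ?_⟩
      · -- compare
        have hγi : γ * γ⁻¹ = 1 := mul_inv_cancel₀ hγ0.ne'
        have hδi : δ * δ⁻¹ = 1 := mul_inv_cancel₀ hδ0.ne'
        have hγi0 : 0 < γ⁻¹ := inv_pos.2 hγ0
        have hδi0 : 0 < δ⁻¹ := inv_pos.2 hδ0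
        have lγ : p 0 * γ ≤ 1 → p 0 ≤ γ⁻¹ := fun hh => by
          rw [← mul_le_mul_iff_of_pos_right hγ0]; linarith
        have gγ : 1 ≤ p 0 * γ → γ⁻¹ ≤ p 0 := fun hh => by
          rw [← mul_le_mul_iff_of_pos_right hγ0]; linarith
        have lδ : p 0 * δ < 1 → p 0 < δ⁻¹ := fun hh => by
          rw [← mul_lt_mul_iff_of_pos_right hδ0]; linarith
        have gδ : 1 < p 0 * δ → δ⁻¹ < p 0 := fun hh => by
          rw [← mul_lt_mul_iff_of_pos_right hδ0]; linarith
        rcases lt_or_gt_of_ne hx1 with hd | hd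
        · have h8 : 1 ≤ p 0 * γ := by
            by_contra hc; exact hnand ⟨not_le.1 hc, hd⟩
          have a1 := gγ h8
          have a2 := lδ hd
          have a3 : 0 < δ⁻¹ - γ⁻¹ := by linarith
          constructor
          · exact div_nonneg (by linarith) a3.le
          · rw [div_lt_one a3]; linarith
        · have h8 : p 0 * γ ≤ 1 := by
            rcases hor with h9 | h9
            · exact h9
            · linarith
          have a1 := lγ h8
          have a2 := gδ hd
          have a3 : δ⁻¹ - γ⁻¹ < 0 := by linarith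
          constructor
          · exact div_nonneg_of_nonpos (by linarith) a3.le
          · rw [div_lt_one_of_neg a3]; linarith
      · have h9 := div_mul_cancel₀ (p 0 - γ⁻¹) hne
        linear_combination -h9
  rcases hAB with hA | ⟨s, hs, hps⟩
  · refine ⟨2 * (i + 1) + 1, by omega, 0, ⟨le_rfl, one_pos⟩, ?_⟩
    unfold Prof.ept
    rw [INN_vto A (i + 1) hi]
    apply INN_ext
    · simp only [PiLp.add_apply, PiLp.smul_apply, smul_eq_mul, INN_pA0]
      rw [← hδ, hA]; ring
    · simp only [PiLp.add_apply, PiLp.smul_apply, smul_eq_mul, INN_pA1]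
      rw [← hδ, h, hA]; ring
  · refine ⟨2 * i + 2, by omega, s, hs, ?_⟩
    unfold Prof.ept
    rw [INN_vte A i hi.le, show 2 * i + 2 + 1 = 2 * (i + 1) + 1 by ring, INN_vto A (i + 1) hi]
    apply INN_ext
    · simp only [PiLp.add_apply, PiLp.smul_apply, smul_eq_mul, INN_pA0, INN_pB0]
      rw [← hδ, ← hγ, hps]
    · simp only [PiLp.add_apply, PiLp.smul_apply, smul_eq_mul, INN_pA1, INN_pB1]
      rw [← hδ, ← hγ, h, hps]; ring

theorem INN_ok (hC : S_CPT) : S_INN := by
  intro A p hp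
  rw [(hC A).1.isClosed.frontier_eq] at hp
  obtain ⟨hr, hni⟩ := hp
  have hr' := hr
  obtain ⟨i, hi, h0, h1, h2, h3⟩ := hr
  rcases eq_or_lt_of_le h0 with hz | hpos
  · refine ⟨0, by omega, 0, ⟨le_rfl, one_pos⟩, ?_⟩
    rw [← hz, mul_zero] at h1 h2
    unfold Prof.ept
    rw [INN_vt0]
    apply INN_ext
    · simp [← hz]
    · simp; linarith
  · rcases eq_or_lt_of_le h1 with e1 | l1
    · rcases Nat.eq_zero_or_pos i with hi0 | hi0
      · subst hi0; exact INN_ray0 A p hpos e1.symm hr'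
      · obtain ⟨i', rfl⟩ : ∃ i', i = i' + 1 := ⟨i - 1, by omega⟩
        exact INN_rayM A p hpos i' (by omega) e1.symm hr' hni
    · rcases eq_or_lt_of_le h2 with e2 | l2
      · rcases eq_or_lt_of_le hi with hiN | hiN
        · subst hiN; exact INN_rayL A p hpos e2 hr'
        · exact INN_rayM A p hpos i hiN e2 hr' hni
      · rcases eq_or_lt_of_le h3 with e3 | l3
        · set γ := A.a i + A.b i * A.q i with hγ
          set δ := A.a i + A.b i * A.q (i + 1) with hδ
          have hγ0 : 0 < γ := A.hl i hi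
          have hδ0 : 0 < δ := A.hr i hi
          have hΔ : 0 < A.q (i + 1) - A.q i := by linarith [A.hq i hi]
          set s := (p 1 - A.q i * p 0) * δ / (A.q (i + 1) - A.q i) with hs
          have hs1 : 1 - s = (A.q (i + 1) * p 0 - p 1) * γ / (A.q (i + 1) - A.q i) := by
            rw [hs, eq_div_iff hΔ.ne', sub_mul, div_mul_cancel₀ _ hΔ.ne', hγ, hδ]
            linear_combination (-(A.q (i + 1) - A.q i)) * e3
          have hspos : 0 < s := by
            rw [hs]; apply div_pos _ hΔ; apply mul_pos _ hδ0; linarith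
          have hs1pos : 0 < 1 - s := by
            rw [hs1]; apply div_pos _ hΔ; apply mul_pos _ hγ0; linarith
          refine ⟨2 * i + 1, by omega, s, ⟨hspos.le, by linarith⟩, ?_⟩
          unfold Prof.ept
          rw [INN_vto A i hi, show 2 * i + 1 + 1 = 2 * i + 2 from rfl, INN_vte A i hi]
          apply INN_ext
          · simp only [PiLp.add_apply, PiLp.smul_apply, smul_eq_mul, INN_pA0, INN_pB0]
            rw [← hδ, ← hγ, hs1, hs]
            field_simp
            ring
          · simp only [PiLp.add_apply, PiLp.smul_apply, smul_eq_mul, INN_pA1, INN_pB1]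
            rw [← hδ, ← hγ, hs1, hs]
            field_simp
            ring
        · exfalso
          apply hni
          rw [mem_interior]
          refine ⟨{p' : E2 | 0 < p' 0 ∧ A.q i * p' 0 < p' 1 ∧ p' 1 < A.q (i + 1) * p' 0 ∧
            A.a i * p' 0 + A.b i * p' 1 < 1}, ?_, ?_, ⟨hpos, l1, l2, l3⟩⟩
          · rintro p' ⟨h0, h1, h2, h3⟩
            exact ⟨i, hi, h0.le, h1.le, h2.le, h3.le⟩
          · have c0 := INN_c0
            have c1 := INN_c1
            exact (isOpen_lt continuous_const c0).inter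
              ((isOpen_lt (continuous_const.mul c0) c1).inter
              ((isOpen_lt c1 (continuous_const.mul c0)).inter (isOpen_lt
              ((continuous_const.mul c0).add (continuous_const.mul c1)) continuous_const)))

end Pool.H183.SX
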