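import Pool.Agent.H183.SX.Defs

open MeasureTheory Set
open scoped ENNReal

namespace Pool.H183.SX

theorem LINE_set (x u : E2) (j y X lam : ℝ) (hy : 0 < y) (hh : u 1 - j * u 0 ≠ 0) :
    {s : ℝ | ((x + s • u) 1 - j * (x + s • u) 0) * X ≤ y * (x + s • u) 0 ∧
      y * (x + s • u) 0 ≤ ((x + s • u) 1 - j * (x + s • u) 0) * (X + 1) ∧
      (x + s • u) 1 - j * (x + s • u) 0 ≤ lam * y} =
    (fun s : ℝ => (u 1 - j * u 0) / y * s) ⁻¹' ((fun z : ℝ => z + (x 1 - j * x 0) / y) ⁻¹'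
      {s : ℝ | s * (X - u 0 / (u 1 - j * u 0) * y) ≤ x 0 - u 0 / (u 1 - j * u 0) * (x 1 - j * x 0) ∧
        x 0 - u 0 / (u 1 - j * u 0) * (x 1 - j * x 0) ≤ s * (X - u 0 / (u 1 - j * u 0) * y + 1) ∧
        s ≤ lam}) := by
  ext s
  simp only [mem_setOf_eq, mem_preimage, PiLp.add_apply, PiLp.smul_apply, smul_eq_mul]
  obtain ⟨h, hh'⟩ : ∃ h, h = u 1 - j * u 0 := ⟨_, rfl⟩
  obtain ⟨H, hH⟩ : ∃ H, H = x 1 - j * x 0 := ⟨_, rfl⟩
  rw [← hh'] at hh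
  obtain ⟨σ, hσ⟩ : ∃ σ, σ = h / y * s + H / y := ⟨_, rfl⟩
  have e1 : x 1 + s * u 1 - j * (x 0 + s * u 0) = y * σ := by
    rw [hσ, hh', hH]
    field_simp
    ring
  have e2 : x 0 + s * u 0 = (x 0 - u 0 / h * H) + u 0 / h * (y * σ) := by
    rw [hσ]
    field_simp
    ring
  rw [← hh', ← hH, ← hσ, e1]
  obtain ⟨ξ, hξ⟩ : ∃ ξ, ξ = x 0 - u 0 / h * H := ⟨_, rfl⟩
  obtain ⟨t, ht⟩ : ∃ t, t = u 0 / h := ⟨_, rfl⟩
  rw [← ht] at e2
  rw [← ht] at hξ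
  rw [← ht, ← hξ]
  rw [← hξ] at e2
  rw [e2]
  have c1 : y * σ * X ≤ y * (ξ + t * (y * σ)) ↔ σ * (X - t * y) ≤ ξ := by
    rw [mul_assoc, mul_le_mul_iff_right₀ hy]
    constructor <;> intro h0 <;> linarith
  have c2 : y * (ξ + t * (y * σ)) ≤ y * σ * (X + 1) ↔ ξ ≤ σ * (X - t * y + 1) := by
    rw [mul_assoc, mul_le_mul_iff_right₀ hy]
    constructor <;> intro h0 <;> linarith
  have c3 : y * σ ≤ lam * y ↔ σ ≤ lam := by
    rw [mul_comm lam, mul_le_mul_iff_right₀ hy]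
  rw [c1, c2, c3]

theorem LINE_ok : S_LINE := by
  intro x u j y X lam hy hh
  rw [LINE_set x u j y X lam hy hh]
  rw [Real.volume_preimage_mul_left (by positivity : (u 1 - j * u 0) / y ≠ 0)]
  rw [measure_preimage_add_right]
  unfold Psi
  congr 1
  congr 1
  rw [inv_div, abs_div, abs_of_pos hy]

end Pool.H183.SX
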