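import Pool.Agent.H183.SX.Defs

open MeasureTheory Set

namespace Pool.H183.SX

/-- the profile with the sectors `i` and `i+1` merged -/
def MERGE_prof (A : Prof) (i : ℕ) (hi : i < A.N) (ha : A.a i = A.a (i + 1))
    (hb : A.b i = A.b (i + 1)) : Prof where
  N := A.N - 1
  q k := if k ≤ i then A.q k else A.q (k + 1)
  a k := if k ≤ i then A.a k else A.a (k + 1)
  b k := if k ≤ i then A.b k else A.b (k + 1)
  hq := by
    intro k hk
    rcases lt_trichotomy k i with h | h | h
    · rw [if_pos h.le, if_pos (by omega)]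
      exact A.hq k (by omega)
    · rw [if_pos h.le, if_neg (by omega), h]
      exact (A.hq i (by omega)).trans (A.hq (i + 1) (by omega))
    · rw [if_neg (by omega), if_neg (by omega)]
      exact A.hq (k + 1) (by omega)
  hl := by
    intro k hk
    by_cases h : k ≤ i
    · rw [if_pos h, if_pos h, if_pos h]
      exact A.hl k (by omega)
    · rw [if_neg h, if_neg h, if_neg h]
      exact A.hl (k + 1) (by omega)
  hr := by
    intro k hk
    rcases lt_trichotomy k i with h | h | h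
    · rw [if_pos h.le, if_pos h.le, if_pos (by omega)]
      exact A.hr k (by omega)
    · rw [if_pos h.le, if_pos h.le, if_neg (by omega), h, ha, hb]
      exact A.hr (i + 1) (by omega)
    · rw [if_neg (by omega), if_neg (by omega), if_neg (by omega)]
      exact A.hr (k + 1) (by omega)

lemma MERGE_mem (A : Prof) (i : ℕ) (p : E2) : p ∈ A.tri i ↔
    0 ≤ p 0 ∧ A.q i * p 0 ≤ p 1 ∧ p 1 ≤ A.q (i + 1) * p 0 ∧ A.a i * p 0 + A.b i * p 1 ≤ 1 := Iff.rfl

lemma MERGE_reg (A : Prof) (i : ℕ) (hi : i < A.N) (ha : A.a i = A.a (i + 1))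
    (hb : A.b i = A.b (i + 1)) : (MERGE_prof A i hi ha hb).reg = A.reg := by
  have q1 : ∀ k, k ≤ i → (MERGE_prof A i hi ha hb).q k = A.q k := fun k hk => if_pos hk
  have q2 : ∀ k, i < k → (MERGE_prof A i hi ha hb).q k = A.q (k + 1) := fun k hk => if_neg (by omega)
  have a1 : ∀ k, k ≤ i → (MERGE_prof A i hi ha hb).a k = A.a k := fun k hk => if_pos hk
  have a2 : ∀ k, i < k → (MERGE_prof A i hi ha hb).a k = A.a (k + 1) := fun k hk => if_neg (by omega)
  have b1 : ∀ k, k ≤ i → (MERGE_prof A i hi ha hb).b k = A.b k := fun k hk => if_pos hk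
  have b2 : ∀ k, i < k → (MERGE_prof A i hi ha hb).b k = A.b (k + 1) := fun k hk => if_neg (by omega)
  have hN : (MERGE_prof A i hi ha hb).N = A.N - 1 := rfl
  ext p
  constructor
  · rintro ⟨k, hk, hp⟩
    rw [hN] at hk
    rw [MERGE_mem] at hp
    obtain ⟨h0, h1, h2, h3⟩ := hp
    rcases lt_trichotomy k i with h | h | h
    · rw [q1 k h.le] at h1
      rw [q1 (k + 1) (by omega)] at h2
      rw [a1 k h.le, b1 k h.le] at h3
      exact ⟨k, by omega, (MERGE_mem _ _ _).2 ⟨h0, h1, h2, h3⟩⟩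
    · rw [h] at h1 h2 h3
      rw [q1 i le_rfl] at h1
      rw [q2 (i + 1) (by omega)] at h2
      rw [a1 i le_rfl, b1 i le_rfl] at h3
      rcases le_total (p 1) (A.q (i + 1) * p 0) with h4 | h4
      · exact ⟨i, by omega, (MERGE_mem _ _ _).2 ⟨h0, h1, h4, h3⟩⟩
      · rw [ha, hb] at h3
        exact ⟨i + 1, by omega, (MERGE_mem _ _ _).2 ⟨h0, h4, h2, h3⟩⟩
    · rw [q2 k h] at h1
      rw [q2 (k + 1) (by omega)] at h2
      rw [a2 k h, b2 k h] at h3
      exact ⟨k + 1, by omega, (MERGE_mem _ _ _).2 ⟨h0, h1, h2, h3⟩⟩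
  · rintro ⟨k, hk, hp⟩
    rw [MERGE_mem] at hp
    obtain ⟨h0, h1, h2, h3⟩ := hp
    have hqi := A.hq i (by omega)
    have hqi1 := A.hq (i + 1) (by omega)
    rcases lt_trichotomy k i with h | h | h
    · refine ⟨k, by rw [hN]; omega, (MERGE_mem _ _ _).2 ⟨h0, ?_, ?_, ?_⟩⟩
      · rw [q1 k h.le]; exact h1
      · rw [q1 (k + 1) (by omega)]; exact h2
      · rw [a1 k h.le, b1 k h.le]; exact h3
    · rw [h] at h1 h2 h3
      refine ⟨i, by rw [hN]; omega, (MERGE_mem _ _ _).2 ⟨h0, ?_, ?_, ?_⟩⟩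
      · rw [q1 i le_rfl]; exact h1
      · rw [q2 (i + 1) (by omega)]
        exact h2.trans (mul_le_mul_of_nonneg_right hqi1.le h0)
      · rw [a1 i le_rfl, b1 i le_rfl]; exact h3
    · by_cases h' : k = i + 1
      · rw [h'] at h1 h2 h3
        refine ⟨i, by rw [hN]; omega, (MERGE_mem _ _ _).2 ⟨h0, ?_, ?_, ?_⟩⟩
        · rw [q1 i le_rfl]
          exact (mul_le_mul_of_nonneg_right hqi.le h0).trans h1
        · rw [q2 (i + 1) (by omega)]; exact h2
        · rw [a1 i le_rfl, b1 i le_rfl, ha, hb]; exact h3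
      · obtain ⟨l, rfl⟩ : ∃ l, k = l + 1 := ⟨k - 1, by omega⟩
        refine ⟨l, by rw [hN]; omega, (MERGE_mem _ _ _).2 ⟨h0, ?_, ?_, ?_⟩⟩
        · rw [q2 l (by omega)]; exact h1
        · rw [q2 (l + 1) (by omega)]; exact h2
        · rw [a2 l (by omega), b2 l (by omega)]; exact h3

lemma MERGE_weak (A : Prof) (i : ℕ) (hi : i < A.N) (ha : A.a i = A.a (i + 1))
    (hb : A.b i = A.b (i + 1)) (hW : A.Weak) : (MERGE_prof A i hi ha hb).Weak := by
  have q1 : ∀ k, k ≤ i → (MERGE_prof A i hi ha hb).q k = A.q k := fun k hk => if_pos hk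
  have q2 : ∀ k, i < k → (MERGE_prof A i hi ha hb).q k = A.q (k + 1) := fun k hk => if_neg (by omega)
  have a1 : ∀ k, k ≤ i → (MERGE_prof A i hi ha hb).a k = A.a k := fun k hk => if_pos hk
  have a2 : ∀ k, i < k → (MERGE_prof A i hi ha hb).a k = A.a (k + 1) := fun k hk => if_neg (by omega)
  have b1 : ∀ k, k ≤ i → (MERGE_prof A i hi ha hb).b k = A.b k := fun k hk => if_pos hk
  have b2 : ∀ k, i < k → (MERGE_prof A i hi ha hb).b k = A.b (k + 1) := fun k hk => if_neg (by omega)
  have hN : (MERGE_prof A i hi ha hb).N = A.N - 1 := rfl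
  intro k hk
  rw [hN] at hk
  rcases lt_trichotomy k i with h | h | h
  · rw [q1 (k + 1) (by omega), a1 k h.le, b1 k h.le, a1 (k + 1) (by omega), b1 (k + 1) (by omega)]
    exact hW k (by omega)
  · rw [h, q2 (i + 1) (by omega), a1 i le_rfl, b1 i le_rfl, a2 (i + 1) (by omega), b2 (i + 1) (by omega),
      ha, hb]
    exact hW (i + 1) (by omega)
  · rw [q2 (k + 1) (by omega), a2 k h, b2 k h, a2 (k + 1) (by omega), b2 (k + 1) (by omega)]
    exact hW (k + 1) (by omega)

theorem MERGE_ok (hP : S_POLY) : S_MERGE := by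
  have main : ∀ (m : ℕ) (A : Prof), A.N = m → A.Weak → IsPolygon A.reg := by
    intro m
    induction m using Nat.strong_induction_on with
    | _ m ih =>
      intro A hm hW
      by_cases hS : A.Strict
      · exact hP A hS
      · unfold Prof.Strict at hS
        push Not at hS
        obtain ⟨i, hi, heq⟩ := hS
        rcases hW i hi with h | ⟨ha, hb⟩
        · exact absurd heq h
        · rw [← MERGE_reg A i hi ha hb]
          exact ih (A.N - 1) (by omega) (MERGE_prof A i hi ha hb) rfl (MERGE_weak A i hi ha hb hW)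
  intro A hW
  exact main A.N A rfl hW

end Pool.H183.SX
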