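import Mathlib
import Pool.Agent.H183.SX.Defs

/-!
# MP_7519fe_gt: the middle triangle of an active patch on a line
-/

open MeasureTheory Set
open scoped ENNReal

namespace Pool.H183.SX

theorem MID_pos (m : ℕ) (c : ℝ) (hc : |c| ≤ 2 * 4 ^ m) : 0 < XX m + c := by
  have h1 := (abs_le.1 hc).1
  have h2 : (0 : ℝ) < 4 ^ m := by positivity
  unfold XX
  nlinarith

/-- the elementary equivalence for a point with coordinates `p`, `q` -/
theorem MID_iff (j y X lam p q : ℝ) (hy : 0 < y) (hX : 0 < X) (hl : 0 < lam) :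
    (0 ≤ p ∧ (j + y / (X + 1)) * p ≤ q ∧ q ≤ (j + y / X) * p ∧
      -j / (lam * y) * p + 1 / (lam * y) * q ≤ 1) ↔
    ((q - j * p) * X ≤ y * p ∧ y * p ≤ (q - j * p) * (X + 1) ∧ q - j * p ≤ lam * y) := by
  have hX1 : 0 < X + 1 := by linarith
  have hly : 0 < lam * y := mul_pos hl hy
  have h1 : (j + y / (X + 1)) * p ≤ q ↔ y * p ≤ (q - j * p) * (X + 1) := by
    have e : (j + y / (X + 1)) * p ≤ q ↔ y * p / (X + 1) ≤ q - j * p := by
      have e2 : (j + y / (X + 1)) * p = j * p + y * p / (X + 1) := by ring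
      rw [e2]
      constructor <;> intro h <;> linarith
    rw [e, div_le_iff₀ hX1]
  have h2 : q ≤ (j + y / X) * p ↔ (q - j * p) * X ≤ y * p := by
    have e : q ≤ (j + y / X) * p ↔ q - j * p ≤ y * p / X := by
      have e2 : (j + y / X) * p = j * p + y * p / X := by ring
      rw [e2]
      constructor <;> intro h <;> linarith
    rw [e, le_div_iff₀ hX]
  have h3 : -j / (lam * y) * p + 1 / (lam * y) * q ≤ 1 ↔ q - j * p ≤ lam * y := by
    have e : -j / (lam * y) * p + 1 / (lam * y) * q = (q - j * p) / (lam * y) := by ring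
    rw [e, div_le_one hly]
  rw [h1, h2, h3]
  constructor
  · rintro ⟨-, a, b, c⟩
    exact ⟨b, a, c⟩
  · rintro ⟨b, a, c⟩
    refine ⟨?_, a, b, c⟩
    have h4 : 0 ≤ q - j * p := by nlinarith
    have h5 : 0 ≤ (q - j * p) * X := mul_nonneg h4 hX.le
    have h6 : 0 ≤ y * p := h5.trans b
    exact nonneg_of_mul_nonneg_right h6 hy

theorem MID_ok (hLn : S_LINE) : S_MID := by
  intro hQ hL m j k w c' h x u lam hk hlam hc hu
  have h4 : 0 < 4 ^ m := by positivity
  have hmod : (j * 4 ^ m + k) % 4 ^ m = k := by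
    rw [Nat.mul_comm, Nat.mul_add_mod]
    exact Nat.mod_eq_of_lt hk
  have hdiv : (j * 4 ^ m + k) / 4 ^ m = j := by
    rw [Nat.mul_comm, Nat.mul_add_div h4, Nat.div_eq_of_lt hk, add_zero]
  generalize hr : j * 4 ^ m + k = r at *
  have hyy : yy m r = (k : ℝ) + 1 := by
    unfold yy
    rw [hmod]
  have hjj : jj m r = (j : ℝ) := by
    unfold jj
    rw [hdiv]
  have e1 : (4 * r + 2) % 4 = 2 := by omega
  have e2 : (4 * r + 2) / 4 = r := by omega
  have e4 : (4 * r + 2 + 1) / 4 = r := by omega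
  have hq1 : qq m w (4 * r + 2) = (j : ℝ) + ((k : ℝ) + 1) / (XX m + w r + 1) := by
    unfold qq
    rw [if_neg (by omega), if_neg (by omega), if_neg (by omega), if_pos e1, e2]
    unfold ml
    rw [hyy, hjj]
  have hq2 : qq m w (4 * r + 2 + 1) = (j : ℝ) + ((k : ℝ) + 1) / (XX m + w r) := by
    unfold qq
    rw [if_neg (by omega), if_neg (by omega), if_neg (by omega), if_neg (by omega), e4]
    unfold mh
    rw [hyy, hjj]
  have ha : aa m c' (4 * r + 2) = -(j : ℝ) / (lam * ((k : ℝ) + 1)) := by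
    unfold aa
    rw [if_neg (by omega), if_pos e1, e2, hjj, hc]
  have hb : bb m c' (4 * r + 2) = 1 / (lam * ((k : ℝ) + 1)) := by
    unfold bb
    rw [if_neg (by omega), if_pos e1, e2, hc]
  have hX : 0 < XX m + w r := MID_pos m (w r) (h.1 r)
  have hl : 0 < lam := by
    rcases hlam with h | h <;> rw [h] <;> norm_num
  have hy : (0 : ℝ) < (k : ℝ) + 1 := by positivity
  rw [← hLn x u j ((k : ℝ) + 1) (XX m + w r) lam hy hu]
  congr 1
  ext s
  have h5 := MID_iff j ((k : ℝ) + 1) (XX m + w r) lam ((x + s • u) 0) ((x + s • u) 1) hy hX hl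
  simp only [Prof.lin, Prof.tri, mem_setOf_eq, prof]
  rw [hq1, hq2, ha, hb]
  exact h5

end Pool.H183.SX
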