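import Pool.Agent.H183.SX.Defs

open MeasureTheory Set
open scoped ENNReal

namespace Pool.H183.SX

theorem NE_mono {q : ℕ → ℝ} {N : ℕ} (h : ∀ i ≤ N, q i < q (i + 1)) :
    ∀ k ≤ N + 1, ∀ i ≤ k, q i ≤ q k := by
  intro k
  induction k with
  | zero =>
    intro _ i hi
    rw [Nat.le_zero.mp hi]
  | succ k ih =>
    intro hk i hi
    rcases hi.eq_or_lt with h1 | h1
    · rw [h1]
    · exact (ih (by omega) i (by omega)).trans (h k (by omega)).le

theorem NE_sgn (m : ℕ) : sgn m 0 = 1 := by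
  unfold sgn
  apply Finset.prod_eq_one
  intro l _
  simp [s4]

theorem NE_ok : S_NE := by
  intro hQ hL m j w h h' hj hEq
  obtain ⟨r, hr⟩ : ∃ r, r = j * 4 ^ m := ⟨_, rfl⟩
  have h4 : 0 < 4 ^ m := by positivity
  have hmod : r % 4 ^ m = 0 := by rw [hr]; exact Nat.mul_mod_left _ _
  have hdiv : r / 4 ^ m = j := by rw [hr]; exact Nat.mul_div_cancel _ h4
  have hyy : yy m r = 1 := by
    unfold yy
    rw [hmod]
    norm_num
  have hjj : jj m r = j := by
    unfold jj
    rw [hdiv]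
  have hcc : cc m r = 1 := by
    unfold cc
    rw [hmod, NE_sgn, if_pos rfl, hyy]
  have hcf : cf m j r = 2 := by
    unfold cf
    rw [hdiv, if_pos rfl, hmod, NE_sgn, if_pos rfl, hyy]
    norm_num
  obtain ⟨X, hX⟩ : ∃ X : ℝ, X = XX m + w r := ⟨_, rfl⟩
  have hX0 : 0 < X := by
    have h1 := (abs_le.mp (h.1 r)).1
    have h2 : (0 : ℝ) < 4 ^ m := by positivity
    rw [hX]
    unfold XX
    nlinarith
  have e1 : (4 * r + 2) / 4 = r := by omega
  have e2 : (4 * r + 3) / 4 = r := by omega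
  have hq2 : qq m w (4 * r + 2) = j + 1 / (X + 1) := by
    unfold qq
    rw [if_neg (by omega), if_neg (by omega), if_neg (by omega), if_pos (by omega), e1]
    unfold ml
    rw [hjj, hyy, hX]
  have hq3 : qq m w (4 * r + 2 + 1) = j + 1 / X := by
    unfold qq
    rw [if_neg (by omega), if_neg (by omega), if_neg (by omega), if_neg (by omega), e2]
    unfold mh
    rw [hjj, hyy, hX]
  have hrM : 4 * r + 2 ≤ 4 * MM m := by
    have h1 : r ≤ m * 4 ^ m := by rw [hr]; exact Nat.mul_le_mul_right _ hj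
    unfold MM
    nlinarith
  obtain ⟨p, hp0, hp1⟩ : ∃ p : E2, p 0 = 3 / 2 * (X + 1 / 2) ∧
      p 1 = 3 / 2 * (j * (X + 1 / 2) + 1) :=
    ⟨!₂[3 / 2 * (X + 1 / 2), 3 / 2 * (j * (X + 1 / 2) + 1)], by simp, by simp⟩
  have hp0p : 0 < p 0 := by rw [hp0]; linarith
  have hlow : qq m w (4 * r + 2) * p 0 < p 1 := by
    rw [hq2, hp0, hp1]
    have h1 : 1 / (X + 1) * (X + 1 / 2) < 1 := by
      rw [one_div, inv_mul_lt_iff₀ (by linarith)]
      linarith
    have h2 : (j + 1 / (X + 1)) * (3 / 2 * (X + 1 / 2)) =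
        3 / 2 * (j * (X + 1 / 2) + 1 / (X + 1) * (X + 1 / 2)) := by ring
    rw [h2]
    linarith
  have hup : p 1 < qq m w (4 * r + 2 + 1) * p 0 := by
    rw [hq3, hp0, hp1]
    have h1 : 1 < 1 / X * (X + 1 / 2) := by
      rw [one_div, lt_inv_mul_iff₀ hX0]
      linarith
    have h2 : (j + 1 / X) * (3 / 2 * (X + 1 / 2)) =
        3 / 2 * (j * (X + 1 / 2) + 1 / X * (X + 1 / 2)) := by ring
    rw [h2]
    linarith
  have hmem : p ∈ (prof hQ hL m w (cf m j) h').reg := by
    refine ⟨4 * r + 2, hrM, hp0p.le, hlow.le, hup.le, ?_⟩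
    show aa m (cf m j) (4 * r + 2) * p 0 + bb m (cf m j) (4 * r + 2) * p 1 ≤ 1
    unfold aa bb
    rw [if_neg (by omega), if_pos (by omega), if_neg (by omega), if_pos (by omega), e1, hcf, hjj,
      hp0, hp1]
    linarith
  rw [hEq] at hmem
  obtain ⟨i, hi, _, t1, t2, t3⟩ := hmem
  change i ≤ 4 * MM m at hi
  change qq m w i * p 0 ≤ p 1 at t1
  change p 1 ≤ qq m w (i + 1) * p 0 at t2
  change aa m (cc m) i * p 0 + bb m (cc m) i * p 1 ≤ 1 at t3
  have hmono := NE_mono (hQ m w (cc m) h)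
  have hieq : i = 4 * r + 2 := by
    rcases lt_trichotomy i (4 * r + 2) with h1 | h1 | h1
    · exfalso
      have h2 := hmono (4 * r + 2) (by omega) (i + 1) (by omega)
      have h3 := mul_le_mul_of_nonneg_right h2 hp0p.le
      linarith
    · exact h1
    · exfalso
      have h2 := hmono i (by omega) (4 * r + 2 + 1) (by omega)
      have h3 := mul_le_mul_of_nonneg_right h2 hp0p.le
      linarith
  rw [hieq] at t3
  unfold aa bb at t3
  rw [if_neg (by omega), if_pos (by omega), if_neg (by omega), if_pos (by omega), e1, hcc, hjj,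
      hp0, hp1] at t3
  linarith

end Pool.H183.SX
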