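import Pool.Agent.H183.SX.Defs

/-! # NPAR: slopes of the middle parts are not parallel to `u` -/

open MeasureTheory Set
open scoped ENNReal

namespace Pool.H183.SX

theorem NPAR_key (B : ℝ) (j k : ℝ) (u0 u1 Y : ℝ) (hk0 : 0 ≤ k) (hk : k + 1 ≤ B) (hh : u1 - j * u0 ≠ 0)
    (hu : |u0 / (u1 - j * u0)| ≤ 2) (hY : 2 * B < Y) : u1 - (j + (k + 1) / Y) * u0 ≠ 0 := by
  intro h0
  have hY0 : 0 < Y := by linarith
  have h1 : u1 - j * u0 = (k + 1) / Y * u0 := by linarith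
  have h2 : (1 : ℝ) = (k + 1) / Y * (u0 / (u1 - j * u0)) := by
    rw [← mul_div_assoc, ← h1, div_self hh]
  have h3 : 0 ≤ (k + 1) / Y := by positivity
  have h4 : (1 : ℝ) ≤ (k + 1) / Y * 2 := by
    calc (1 : ℝ) = |(k + 1) / Y * (u0 / (u1 - j * u0))| := by rw [← h2, abs_one]
      _ = (k + 1) / Y * |u0 / (u1 - j * u0)| := by rw [abs_mul, abs_of_nonneg h3]
      _ ≤ (k + 1) / Y * 2 := mul_le_mul_of_nonneg_left hu h3
  have h5 : (k + 1) / Y * 2 < 1 := by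
    rw [div_mul_eq_mul_div, div_lt_one hY0]
    linarith
  linarith

theorem NPAR_ok : S_NPAR := by
  intro m j k w u hw hk hh hu
  have hB : (1 : ℝ) ≤ (4 : ℝ) ^ m := one_le_pow₀ (by norm_num)
  have hkB : (k : ℝ) + 1 ≤ (4 : ℝ) ^ m := by
    have h1 : k + 1 ≤ 4 ^ m := hk
    exact_mod_cast h1
  have hpos : 0 < 4 ^ m := by positivity
  have hdiv : (j * 4 ^ m + k) / 4 ^ m = j := by
    rw [add_comm, Nat.add_mul_div_right _ _ hpos, Nat.div_eq_of_lt hk, zero_add]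
  have hmod : (j * 4 ^ m + k) % 4 ^ m = k := by
    rw [add_comm, Nat.add_mul_mod_self_right, Nat.mod_eq_of_lt hk]
  have hjj : jj m (j * 4 ^ m + k) = j := by
    unfold jj
    rw [hdiv]
  have hyy : yy m (j * 4 ^ m + k) = (k : ℝ) + 1 := by
    unfold yy
    rw [hmod]
  have hwr := hw (j * 4 ^ m + k)
  rw [abs_le] at hwr
  have hX : XX m = (2 * (4 : ℝ) ^ m + 2) ^ 2 := rfl
  have hX1 : 2 * (4 : ℝ) ^ m < XX m + w (j * 4 ^ m + k) := by
    rw [hX]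
    nlinarith
  have e2 : qq m w (4 * (j * 4 ^ m + k) + 2) =
      (j : ℝ) + ((k : ℝ) + 1) / (XX m + w (j * 4 ^ m + k) + 1) := by
    have a1 : (4 * (j * 4 ^ m + k) + 2) ≠ 0 := by omega
    have a2 : (4 * (j * 4 ^ m + k) + 2) % 4 = 2 := by omega
    have a3 : (4 * (j * 4 ^ m + k) + 2) / 4 = j * 4 ^ m + k := by omega
    unfold qq
    rw [if_neg a1, a2, a3]
    norm_num
    unfold ml
    rw [hjj, hyy]
  have e3 : qq m w (4 * (j * 4 ^ m + k) + 2 + 1) =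
      (j : ℝ) + ((k : ℝ) + 1) / (XX m + w (j * 4 ^ m + k)) := by
    have a1 : (4 * (j * 4 ^ m + k) + 2 + 1) ≠ 0 := by omega
    have a2 : (4 * (j * 4 ^ m + k) + 2 + 1) % 4 = 3 := by omega
    have a3 : (4 * (j * 4 ^ m + k) + 2 + 1) / 4 = j * 4 ^ m + k := by omega
    unfold qq
    rw [if_neg a1, a2, a3]
    norm_num
    unfold mh
    rw [hjj, hyy]
  rw [e2, e3]
  exact ⟨NPAR_key _ _ _ _ _ _ (Nat.cast_nonneg k) hkB hh hu (by linarith),
    NPAR_key _ _ _ _ _ _ (Nat.cast_nonneg k) hkB hh hu hX1⟩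

end Pool.H183.SX
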