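import Pool.Agent.H183.SX.Defs

open MeasureTheory Set
open scoped ENNReal

namespace Pool.H183.SX

theorem OFF_aux (t : ℕ → ℝ) (m k : ℕ) (ht : ∀ l, |t l| ≤ 2) : |off t m k| ≤ 2 * 4 ^ m - 2 := by
  induction m with
  | zero => simp [off]
  | succ m ih =>
    have h1 : off t (m + 1) k = off t m k + ((k / 4 ^ m % 4 : ℕ) : ℝ) * 4 ^ m * t m := by
      unfold off
      rw [Finset.sum_range_succ]
    have h2 : |((k / 4 ^ m % 4 : ℕ) : ℝ) * 4 ^ m * t m| ≤ 3 * 4 ^ m * 2 := by
      rw [abs_mul, abs_mul, Nat.abs_cast, abs_of_pos (by positivity : (0:ℝ) < 4 ^ m)]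
      have h3 : ((k / 4 ^ m % 4 : ℕ) : ℝ) ≤ 3 := by
        have : k / 4 ^ m % 4 ≤ 3 := by omega
        exact_mod_cast this
      have h4 := ht m
      gcongr
    rw [h1]
    refine (abs_add_le _ _).trans ?_
    rw [pow_succ]
    linarith

theorem OFF_ok : S_OFF := by
  intro t m k ht
  have := OFF_aux t m k ht
  linarith

end Pool.H183.SX
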