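import Pool.Agent.H183.SX.Defs

set_option autoImplicit false

open MeasureTheory Set
open scoped ENNReal

namespace Pool.H183.SX

theorem OUT_mono (A : Prof) (i j : ℕ) (hij : i ≤ j) (hj : j ≤ A.N + 1) : A.q i ≤ A.q j := by
  induction j, hij using Nat.le_induction with
  | base => exact le_rfl
  | succ j hij ih => exact (ih (by omega)).trans (A.hq j (by omega)).le

theorem OUT_ray (A : Prof) (p v : E2) (h : ∀ d : ℝ, 0 < d → p + d • v ∉ A.reg) :
    p ∉ interior A.reg := by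
  intro hp
  have hc : Continuous (fun d : ℝ => p + d • v) := by fun_prop
  have h1 : (fun d : ℝ => p + d • v) ⁻¹' (interior A.reg) ∈ nhds (0 : ℝ) := by
    apply hc.continuousAt.preimage_mem_nhds
    apply isOpen_interior.mem_nhds
    simpa using hp
  obtain ⟨ε, hε, hball⟩ := Metric.mem_nhds_iff.mp h1
  have h2 : (ε / 2) ∈ Metric.ball (0 : ℝ) ε := by
    rw [Metric.mem_ball, Real.dist_eq, sub_zero, abs_of_pos (by positivity)]
    linarith
  exact h (ε / 2) (by positivity) (interior_subset (hball h2))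

theorem OUT_F1 (A : Prof) (i : ℕ) (hi : i ≤ A.N) (p : E2) (h0 : 0 ≤ p 0)
    (h1 : A.q i * p 0 ≤ p 1) (h2 : p 1 ≤ A.q (i + 1) * p 0) (h3 : 1 ≤ A.a i * p 0 + A.b i * p 1) :
    p ∉ interior A.reg := by
  refine OUT_ray A p !₂[1, (A.q i + A.q (i + 1)) / 2] (fun d hd hmem => ?_)
  obtain ⟨j, hj, hm⟩ := hmem
  have e0 : (p + d • (!₂[1, (A.q i + A.q (i + 1)) / 2] : E2)) 0 = p 0 + d := by
    simp
  have e1 : (p + d • (!₂[1, (A.q i + A.q (i + 1)) / 2] : E2)) 1 =
      p 1 + d * ((A.q i + A.q (i + 1)) / 2) := by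
    simp
  obtain ⟨m0, m1, m2, m3⟩ := hm
  rw [e0] at m0 m1 m2 m3
  rw [e1] at m1 m2 m3
  have hq := A.hq i hi
  have hl := A.hl i hi
  have hr := A.hr i hi
  have s1 : A.q i * (p 0 + d) < p 1 + d * ((A.q i + A.q (i + 1)) / 2) := by nlinarith
  have s2 : p 1 + d * ((A.q i + A.q (i + 1)) / 2) < A.q (i + 1) * (p 0 + d) := by nlinarith
  have hpos : 0 ≤ p 0 + d := by linarith
  rcases lt_trichotomy j i with h | h | h
  · have hm := OUT_mono A (j + 1) i (by omega) (by omega)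
    have := mul_le_mul_of_nonneg_right hm hpos
    linarith
  · subst h
    have : 0 < d * ((A.a j + A.b j * A.q j) + (A.a j + A.b j * A.q (j + 1))) := by positivity
    nlinarith
  · have hm := OUT_mono A (i + 1) j (by omega) (by omega)
    have := mul_le_mul_of_nonneg_right hm hpos
    linarith

theorem OUT_F2 (A : Prof) (p : E2) (h1 : p 1 = A.q 0 * p 0) : p ∉ interior A.reg := by
  refine OUT_ray A p !₂[0, -1] (fun d hd hmem => ?_)
  obtain ⟨j, hj, hm⟩ := hmem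
  have e0 : (p + d • (!₂[0, -1] : E2)) 0 = p 0 := by simp
  have e1 : (p + d • (!₂[0, -1] : E2)) 1 = p 1 - d := by simp; ring
  obtain ⟨m0, m1, m2, m3⟩ := hm
  rw [e0] at m0 m1 m2 m3
  rw [e1] at m1 m2 m3
  have hm := OUT_mono A 0 j (by omega) (by omega)
  have := mul_le_mul_of_nonneg_right hm m0
  linarith

theorem OUT_F3 (A : Prof) (p : E2) (h1 : p 1 = A.q (A.N + 1) * p 0) : p ∉ interior A.reg := by
  refine OUT_ray A p !₂[0, 1] (fun d hd hmem => ?_)
  obtain ⟨j, hj, hm⟩ := hmem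
  have e0 : (p + d • (!₂[0, 1] : E2)) 0 = p 0 := by simp
  have e1 : (p + d • (!₂[0, 1] : E2)) 1 = p 1 + d := by simp
  obtain ⟨m0, m1, m2, m3⟩ := hm
  rw [e0] at m0 m1 m2 m3
  rw [e1] at m1 m2 m3
  have hm := OUT_mono A (j + 1) (A.N + 1) (by omega) le_rfl
  have := mul_le_mul_of_nonneg_right hm m0
  linarith

theorem OUT_fr (A : Prof) (p : E2) (h1 : p ∈ A.reg) (h2 : p ∉ interior A.reg) :
    p ∈ frontier A.reg := ⟨subset_closure h1, h2⟩

theorem OUT_vtA (A : Prof) (i : ℕ) (hi : i ≤ A.N) : A.vt (2 * i + 1) = A.pA i := by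
  unfold Prof.vt
  rw [if_neg (by omega), if_pos (by omega)]
  congr 1
  omega

theorem OUT_vtB (A : Prof) (i : ℕ) (hi : i ≤ A.N) : A.vt (2 * i + 2) = A.pB i := by
  unfold Prof.vt
  rw [if_neg (by omega), if_neg (by omega)]
  congr 1
  omega

theorem t_OUT : S_OUT := by
  intro A k hk s hs
  obtain ⟨hs0, hs1⟩ := hs
  have c0 : (A.ept k s) 0 = (1 - s) * (A.vt k) 0 + s * (A.vt (k + 1)) 0 := by
    simp [Prof.ept]
  have c1 : (A.ept k s) 1 = (1 - s) * (A.vt k) 1 + s * (A.vt (k + 1)) 1 := by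
    simp [Prof.ept]
  have a0 : ∀ i, (A.pA i) 0 = (A.a i + A.b i * A.q i)⁻¹ := fun i => by simp [Prof.pA]
  have a1 : ∀ i, (A.pA i) 1 = (A.a i + A.b i * A.q i)⁻¹ * A.q i := fun i => by simp [Prof.pA]
  have b0 : ∀ i, (A.pB i) 0 = (A.a i + A.b i * A.q (i + 1))⁻¹ := fun i => by simp [Prof.pB]
  have b1 : ∀ i, (A.pB i) 1 = (A.a i + A.b i * A.q (i + 1))⁻¹ * A.q (i + 1) :=
    fun i => by simp [Prof.pB]
  by_cases hk0 : k = 0
  · subst hk0
    have v0 : A.vt 0 = 0 := by simp [Prof.vt]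
    have v1 : A.vt (0 + 1) = A.pA 0 := OUT_vtA A 0 (by omega)
    rw [v0, v1] at c0 c1
    rw [a0] at c0
    rw [a1] at c1
    have hl := A.hl 0 (by omega)
    have hq := A.hq 0 (by omega)
    have hinv : 0 < (A.a 0 + A.b 0 * A.q 0)⁻¹ := inv_pos.mpr hl
    have hmul : (A.a 0 + A.b 0 * A.q 0) * (A.a 0 + A.b 0 * A.q 0)⁻¹ = 1 :=
      mul_inv_cancel₀ hl.ne'
    have z0 : ((0 : E2) 0 : ℝ) = 0 := rfl
    have z1 : ((0 : E2) 1 : ℝ) = 0 := rfl
    rw [z0, mul_zero, zero_add] at c0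
    rw [z1, mul_zero, zero_add] at c1
    have e : (A.ept 0 s) 1 = A.q 0 * (A.ept 0 s) 0 := by rw [c0, c1]; ring
    have hp0 : 0 ≤ (A.ept 0 s) 0 := by rw [c0]; positivity
    refine OUT_fr A _ ⟨0, by omega, hp0, e.ge, ?_, ?_⟩ (OUT_F2 A _ e)
    · rw [e]; exact mul_le_mul_of_nonneg_right hq.le hp0
    · rw [c0, c1]
      have : A.a 0 * (s * (A.a 0 + A.b 0 * A.q 0)⁻¹) +
          A.b 0 * (s * ((A.a 0 + A.b 0 * A.q 0)⁻¹ * A.q 0)) =
          s * ((A.a 0 + A.b 0 * A.q 0) * (A.a 0 + A.b 0 * A.q 0)⁻¹) := by ring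
      rw [this, hmul, mul_one]
      exact hs1.le
  · rcases Nat.even_or_odd' k with ⟨i', hi' | hi'⟩
    · -- k = 2 (i+1)
      obtain ⟨i, rfl⟩ : ∃ i, i' = i + 1 := ⟨i' - 1, by omega⟩
      have hi : i ≤ A.N := by omega
      have hk' : k = 2 * i + 2 := by omega
      subst hk'
      rw [OUT_vtB A i hi] at c0 c1
      rw [b0] at c0
      rw [b1] at c1
      have hr := A.hr i hi
      have hq := A.hq i hi
      obtain ⟨β, hβ⟩ : ∃ β, β = A.a i + A.b i * A.q (i + 1) := ⟨_, rfl⟩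
      rw [← hβ] at hr c0 c1
      have hβi : 0 < β⁻¹ := inv_pos.mpr hr
      have hmul : β * β⁻¹ = 1 := mul_inv_cancel₀ hr.ne'
      by_cases hiN : i = A.N
      · subst hiN
        have v1 : A.vt (2 * A.N + 2 + 1) = 0 := by simp [Prof.vt]
        rw [v1] at c0 c1
        have z0 : ((0 : E2) 0 : ℝ) = 0 := rfl
        have z1 : ((0 : E2) 1 : ℝ) = 0 := rfl
        rw [z0, mul_zero, add_zero] at c0
        rw [z1, mul_zero, add_zero] at c1
        have e : (A.ept (2 * A.N + 2) s) 1 = A.q (A.N + 1) * (A.ept (2 * A.N + 2) s) 0 := by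
          rw [c0, c1]; ring
        have h1s : 0 ≤ 1 - s := by linarith
        have hp0 : 0 ≤ (A.ept (2 * A.N + 2) s) 0 := by rw [c0]; positivity
        refine OUT_fr A _ ⟨A.N, le_rfl, hp0, ?_, e.le, ?_⟩ (OUT_F3 A _ e)
        · rw [e]; exact mul_le_mul_of_nonneg_right hq.le hp0
        · rw [e, c0]
          have : A.a A.N * ((1 - s) * β⁻¹) + A.b A.N * (A.q (A.N + 1) * ((1 - s) * β⁻¹)) =
              (1 - s) * ((A.a A.N + A.b A.N * A.q (A.N + 1)) * β⁻¹) := by ring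
          rw [this, ← hβ, hmul, mul_one]
          linarith
      · have hi1 : i + 1 ≤ A.N := by omega
        have v1 : A.vt (2 * i + 2 + 1) = A.pA (i + 1) := OUT_vtA A (i + 1) hi1
        rw [v1] at c0 c1
        rw [a0] at c0
        rw [a1] at c1
        have hl := A.hl (i + 1) hi1
        have hq' := A.hq (i + 1) hi1
        obtain ⟨α, hα⟩ : ∃ α, α = A.a (i + 1) + A.b (i + 1) * A.q (i + 1) := ⟨_, rfl⟩
        rw [← hα] at hl c0 c1
        have hαi : 0 < α⁻¹ := inv_pos.mpr hl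
        have hmul' : α * α⁻¹ = 1 := mul_inv_cancel₀ hl.ne'
        have e : (A.ept (2 * i + 2) s) 1 = A.q (i + 1) * (A.ept (2 * i + 2) s) 0 := by
          rw [c0, c1]; ring
        have h1s : 0 ≤ 1 - s := by linarith
        have hp0 : 0 ≤ (A.ept (2 * i + 2) s) 0 := by rw [c0]; positivity
        have g1 : A.a i * (A.ept (2 * i + 2) s) 0 + A.b i * (A.ept (2 * i + 2) s) 1 =
            β * (A.ept (2 * i + 2) s) 0 := by rw [e, hβ]; ring
        have g2 : A.a (i + 1) * (A.ept (2 * i + 2) s) 0 + A.b (i + 1) * (A.ept (2 * i + 2) s) 1 =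
            α * (A.ept (2 * i + 2) s) 0 := by rw [e, hα]; ring
        have sec1 : A.q i * (A.ept (2 * i + 2) s) 0 ≤ (A.ept (2 * i + 2) s) 1 := by
          rw [e]; exact mul_le_mul_of_nonneg_right hq.le hp0
        have sec2 : (A.ept (2 * i + 2) s) 1 ≤ A.q (i + 1 + 1) * (A.ept (2 * i + 2) s) 0 := by
          rw [e]; exact mul_le_mul_of_nonneg_right hq'.le hp0
        rcases le_total β α with hab | hab
        · -- β ≤ α
          have hinv : α⁻¹ ≤ β⁻¹ := inv_anti₀ hr hab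
          have x1 : (A.ept (2 * i + 2) s) 0 ≤ β⁻¹ := by rw [c0]; nlinarith
          have x2 : α⁻¹ ≤ (A.ept (2 * i + 2) s) 0 := by rw [c0]; nlinarith
          have y1 : β * (A.ept (2 * i + 2) s) 0 ≤ 1 := by
            rw [← hmul]; exact mul_le_mul_of_nonneg_left x1 hr.le
          have y2 : 1 ≤ α * (A.ept (2 * i + 2) s) 0 := by
            rw [← hmul']; exact mul_le_mul_of_nonneg_left x2 hl.le
          refine OUT_fr A _ ⟨i, hi, hp0, sec1, e.le, by rw [g1]; exact y1⟩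
            (OUT_F1 A (i + 1) hi1 _ hp0 e.ge sec2 (by rw [g2]; exact y2))
        · have hinv : β⁻¹ ≤ α⁻¹ := inv_anti₀ hl hab
          have x1 : (A.ept (2 * i + 2) s) 0 ≤ α⁻¹ := by rw [c0]; nlinarith
          have x2 : β⁻¹ ≤ (A.ept (2 * i + 2) s) 0 := by rw [c0]; nlinarith
          have y1 : α * (A.ept (2 * i + 2) s) 0 ≤ 1 := by
            rw [← hmul']; exact mul_le_mul_of_nonneg_left x1 hl.le
          have y2 : 1 ≤ β * (A.ept (2 * i + 2) s) 0 := by
            rw [← hmul]; exact mul_le_mul_of_nonneg_left x2 hr.le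
          refine OUT_fr A _ ⟨i + 1, hi1, hp0, e.ge, sec2, by rw [g2]; exact y1⟩
            (OUT_F1 A i hi _ hp0 sec1 e.le (by rw [g1]; exact y2))
    · -- k = 2 i + 1
      have hi : i' ≤ A.N := by omega
      subst hi'
      have v2 : A.vt (2 * i' + 1 + 1) = A.pB i' := OUT_vtB A i' hi
      rw [OUT_vtA A i' hi, v2] at c0 c1
      rw [a0, b0] at c0
      rw [a1, b1] at c1
      have hl := A.hl i' hi
      have hr := A.hr i' hi
      have hq := A.hq i' hi
      obtain ⟨α, hα⟩ : ∃ α, α = A.a i' + A.b i' * A.q i' := ⟨_, rfl⟩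
      obtain ⟨β, hβ⟩ : ∃ β, β = A.a i' + A.b i' * A.q (i' + 1) := ⟨_, rfl⟩
      rw [← hα] at hl c0 c1
      rw [← hβ] at hr c0 c1
      have hαi : 0 < α⁻¹ := inv_pos.mpr hl
      have hβi : 0 < β⁻¹ := inv_pos.mpr hr
      have hmulα : α * α⁻¹ = 1 := mul_inv_cancel₀ hl.ne'
      have hmulβ : β * β⁻¹ = 1 := mul_inv_cancel₀ hr.ne'
      have h1s : 0 ≤ 1 - s := by linarith
      have hp0 : 0 ≤ (A.ept (2 * i' + 1) s) 0 := by rw [c0]; positivity
      have k1 : 0 ≤ s * β⁻¹ * (A.q (i' + 1) - A.q i') := by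
        have : 0 < A.q (i' + 1) - A.q i' := by linarith
        positivity
      have k2 : 0 ≤ (1 - s) * α⁻¹ * (A.q (i' + 1) - A.q i') := by
        have : 0 < A.q (i' + 1) - A.q i' := by linarith
        positivity
      have sec1 : A.q i' * (A.ept (2 * i' + 1) s) 0 ≤ (A.ept (2 * i' + 1) s) 1 := by
        rw [c0, c1]; nlinarith
      have sec2 : (A.ept (2 * i' + 1) s) 1 ≤ A.q (i' + 1) * (A.ept (2 * i' + 1) s) 0 := by
        rw [c0, c1]; nlinarith
      have g : A.a i' * (A.ept (2 * i' + 1) s) 0 + A.b i' * (A.ept (2 * i' + 1) s) 1 = 1 := by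
        rw [c0, c1]
        have : A.a i' * ((1 - s) * α⁻¹ + s * β⁻¹) +
            A.b i' * ((1 - s) * (α⁻¹ * A.q i') + s * (β⁻¹ * A.q (i' + 1))) =
            (1 - s) * ((A.a i' + A.b i' * A.q i') * α⁻¹) +
              s * ((A.a i' + A.b i' * A.q (i' + 1)) * β⁻¹) := by ring
        rw [this, ← hα, ← hβ, hmulα, hmulβ]
        ring
      exact OUT_fr A _ ⟨i', hi, hp0, sec1, sec2, g.le⟩ (OUT_F1 A i' hi _ hp0 sec1 sec2 g.ge)

end Pool.H183.SX
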