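import Pool.Agent.H183.SX.Defs

/-!
# PIG: pigeonhole
-/

set_option autoImplicit false

namespace Pool.H183.SX

/-- one direction excludes at most one integer -/
theorem PIG_unique {a b : ℝ} {j j' : ℕ} (h : |b - (j : ℝ) * a| < |a| / 2)
    (h' : |b - (j' : ℝ) * a| < |a| / 2) : j = j' := by
  by_contra hne
  have h1 : (1 : ℝ) ≤ |(j : ℝ) - j'| := by
    have h2 : (1 : ℤ) ≤ |(j : ℤ) - j'| := by
      apply Int.one_le_abs
      intro h0
      apply hne
      omega
    have h3 : ((1 : ℤ) : ℝ) ≤ ((|(j : ℤ) - j'| : ℤ) : ℝ) := by exact_mod_cast h2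
    simpa using h3
  have h4 : |((j : ℝ) - j') * a| ≤ |b - (j' : ℝ) * a| + |b - (j : ℝ) * a| := by
    have : ((j : ℝ) - j') * a = (b - (j' : ℝ) * a) - (b - (j : ℝ) * a) := by ring
    rw [this]
    exact abs_sub _ _
  rw [abs_mul] at h4
  nlinarith [abs_nonneg a]

theorem PIG_ok : S_PIG := by
  intro m S hS hm
  classical
  have key : ∃ j ≤ m, ∀ u ∈ S, |u 0| / 2 ≤ |u 1 - (j : ℝ) * u 0| := by
    by_contra hcon
    push Not at hcon
    have hex : ∀ j : ℕ, ∃ u : E2, j ≤ m → u ∈ S ∧ |u 1 - (j : ℝ) * u 0| < |u 0| / 2 := by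
      intro j
      by_cases hj : j ≤ m
      · obtain ⟨u, hu, hlt⟩ := hcon j hj
        exact ⟨u, fun _ => ⟨hu, hlt⟩⟩
      · exact ⟨0, fun h => absurd h hj⟩
    choose f hf using hex
    have hcard : (Finset.range (m + 1)).card ≤ S.card := by
      refine Finset.card_le_card_of_injOn f ?_ ?_
      · intro j hj
        have : j ≤ m := Nat.lt_succ_iff.1 (Finset.mem_range.1 (Finset.mem_coe.1 hj))
        exact (hf j this).1
      · intro j hj j' hj' he
        have h1 : j ≤ m := Nat.lt_succ_iff.1 (Finset.mem_range.1 (Finset.mem_coe.1 hj))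
        have h2 : j' ≤ m := Nat.lt_succ_iff.1 (Finset.mem_range.1 (Finset.mem_coe.1 hj'))
        have e1 := (hf j h1).2
        have e2 := (hf j' h2).2
        rw [← he] at e2
        exact PIG_unique e1 e2
    rw [Finset.card_range] at hcard
    omega
  obtain ⟨j, hj, hgood⟩ := key
  have hne : ∀ u ∈ S, u 1 - (j : ℝ) * u 0 ≠ 0 := by
    intro u hu h0
    have h1 := hgood u hu
    rw [h0, abs_zero] at h1
    have h2 : u 0 = 0 := by
      have : |u 0| ≤ 0 := by linarith
      exact abs_eq_zero.1 (le_antisymm this (abs_nonneg _))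
    rw [h2, mul_zero, sub_zero] at h0
    have h3 := hS u hu
    rw [EuclideanSpace.norm_eq, Fin.sum_univ_two, h2, h0] at h3
    simp at h3
  have hle : ∀ u ∈ S, |u 0 / (u 1 - (j : ℝ) * u 0)| ≤ 2 := by
    intro u hu
    rw [abs_div, div_le_iff₀ (abs_pos.2 (hne u hu))]
    have := hgood u hu
    linarith
  let g : E2 → ℝ := fun u => u 0 / (u 1 - (j : ℝ) * u 0)
  refine ⟨j, hj, fun l => if h : l < S.card then g (S.equivFin.symm ⟨l, h⟩) else 0, ?_, ?_⟩
  · intro l
    by_cases h : l < S.card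
    · simp only [dif_pos h]
      exact hle _ (S.equivFin.symm ⟨l, h⟩).2
    · simp only [dif_neg h, abs_zero]
      norm_num
  · intro u hu
    refine ⟨hne u hu, ((S.equivFin ⟨u, hu⟩ : Fin S.card) : ℕ), ?_, ?_⟩
    · exact lt_of_lt_of_le (S.equivFin ⟨u, hu⟩).2 hm
    · have h : ((S.equivFin ⟨u, hu⟩ : Fin S.card) : ℕ) < S.card := (S.equivFin ⟨u, hu⟩).2
      simp only [dif_pos h, Fin.eta, Equiv.symm_apply_apply]
      rfl

end Pool.H183.SX
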