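import Pool.Agent.H183.SX.Defs

open MeasureTheory Set
open scoped ENNReal

namespace Pool.H183.SX

theorem POLY_ok (hC : S_CPT) (hI : S_INJ) (hO : S_OUT) (hN : S_INN) : S_POLY := by
  intro A hA
  have hval : ∀ k : Fin (2 * A.N + 3), A.vt ((k + 1 : Fin (2 * A.N + 3)) : ℕ) = A.vt ((k : ℕ) + 1) := by
    intro k
    rw [Fin.val_add_one]
    split
    · rename_i h
      rw [h]
      show A.vt 0 = A.vt (2 * A.N + 3)
      simp [Prof.vt]
    · rfl
  have hpt : ∀ p : Fin (2 * A.N + 3) × Ico (0 : ℝ) 1,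
      edgePt (fun k : Fin (2 * A.N + 3) => A.vt k) p = A.ept p.1 p.2 := by
    intro p
    unfold edgePt Prof.ept
    simp only [hval]
  refine ⟨(hC A).1, (hC A).2, 2 * A.N, fun k => A.vt k, ?_, ?_⟩
  · intro p p' hpp
    rw [hpt, hpt] at hpp
    obtain ⟨h1, h2⟩ := hI A hA p.1 (by have := p.1.2; omega) p'.1 (by have := p'.1.2; omega)
      p.2 p.2.2 p'.2 p'.2.2 hpp
    exact Prod.ext (Fin.ext h1) (Subtype.ext h2)
  · ext x
    constructor
    · intro hx
      obtain ⟨k, hk, s, hs, rfl⟩ := hN A x hx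
      exact ⟨(⟨k, by omega⟩, ⟨s, hs⟩), hpt _⟩
    · rintro ⟨p, rfl⟩
      rw [hpt]
      exact hO A p.1 (by have := p.1.2; omega) p.2 p.2.2

end Pool.H183.SX
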