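import Pool.Agent.H183.SX.Defs

open MeasureTheory Set
open scoped ENNReal

namespace Pool.H183.SX

theorem PSI_ok : S_PSI := by
  intro ξ ξ' lam
  unfold Psi
  have hsub : {s : ℝ | s * ξ ≤ ξ' ∧ ξ' ≤ s * (ξ + 1) ∧ s ≤ lam} ⊆ Icc 0 lam := by
    rintro s ⟨h1, h2, h3⟩
    exact ⟨by nlinarith, h3⟩
  refine ne_top_of_le_ne_top ?_ (measure_mono hsub)
  rw [Real.volume_Icc]
  exact ENNReal.ofReal_ne_top

end Pool.H183.SX
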