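import Pool.Agent.H183.SX.Defs

/-! Step Q: the slopes increase. -/

open MeasureTheory Set
open scoped ENNReal

namespace Pool.H183.SX

private theorem Q_0 (m : ℕ) (w : ℕ → ℝ) : qq m w 0 = -1 := by simp [qq]

private theorem Q_4 (m : ℕ) (w : ℕ → ℝ) (r : ℕ) : qq m w (4 * (r + 1)) = hi m r := by
  unfold qq
  rw [if_neg (by omega), if_pos (by omega)]
  congr 1
  omega

private theorem Q_41 (m : ℕ) (w : ℕ → ℝ) (r : ℕ) : qq m w (4 * r + 1) = lo m r := by
  unfold qq
  rw [if_neg (by omega), if_neg (by omega), if_pos (by omega)]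
  congr 1
  omega

private theorem Q_42 (m : ℕ) (w : ℕ → ℝ) (r : ℕ) : qq m w (4 * r + 2) = ml m w r := by
  unfold qq
  rw [if_neg (by omega), if_neg (by omega), if_neg (by omega), if_pos (by omega)]
  congr 1
  omega

private theorem Q_43 (m : ℕ) (w : ℕ → ℝ) (r : ℕ) : qq m w (4 * r + 3) = mh m w r := by
  unfold qq
  rw [if_neg (by omega), if_neg (by omega), if_neg (by omega), if_neg (by omega)]
  congr 1
  omega

private theorem Q_yy_pos (m r : ℕ) : 0 < yy m r := by
  unfold yy
  positivity

private theorem Q_step (m r : ℕ) : hi m r < lo m (r + 1) := by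
  unfold hi lo
  have hB : 0 < 4 ^ m := by positivity
  set B : ℕ := 4 ^ m with hBdef
  have hBr : (1 : ℝ) ≤ (B : ℝ) := by exact_mod_cast hB
  have hD : DD m = 2 * (B : ℝ) + 2 := by
    unfold DD
    rw [hBdef]
    push_cast
    rfl
  have hX : XX m = (2 * (B : ℝ) + 2) ^ 2 := by
    unfold XX
    rw [hBdef]
    push_cast
    rfl
  rw [hD, hX]
  have hp : 0 < (2 * (B : ℝ) + 2) ^ 2 - (2 * (B : ℝ) + 2) := by nlinarith
  have hq : 0 < (2 * (B : ℝ) + 2) ^ 2 + (2 * (B : ℝ) + 2) := by nlinarith
  by_cases hr : (r + 1) % B = 0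
  · have h1 : (r + 1) / B = r / B + 1 ∧ r % B + 1 = B := by
      obtain ⟨c, hc⟩ := Nat.dvd_of_mod_eq_zero hr
      have hc0 : c ≠ 0 := by
        rintro rfl
        omega
      obtain ⟨d, rfl⟩ := Nat.exists_eq_succ_of_ne_zero hc0
      have h2 : r = (B - 1) + B * d := by
        rw [Nat.succ_eq_add_one, Nat.mul_add, Nat.mul_one] at hc
        omega
      have h3 : (B - 1) / B = 0 := Nat.div_eq_of_lt (by omega)
      have h4 : (B - 1) % B = B - 1 := Nat.mod_eq_of_lt (by omega)
      constructor
      · rw [hc, Nat.mul_div_cancel_left _ hB, h2, Nat.add_mul_div_left _ _ hB, h3]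
        omega
      · rw [h2, Nat.add_mul_mod_self_left, h4]
        omega
    have hj : jj m (r + 1) = jj m r + 1 := by
      unfold jj
      rw [← hBdef, h1.1]
      push_cast
      ring
    have hy : yy m r = B := by
      unfold yy
      rw [← hBdef]
      exact_mod_cast h1.2
    have hy' : yy m (r + 1) = 1 := by
      unfold yy
      rw [← hBdef, hr]
      simp
    rw [hj, hy, hy']
    have h5 : (B : ℝ) / ((2 * (B : ℝ) + 2) ^ 2 - (2 * (B : ℝ) + 2)) < 1 := by
      rw [div_lt_one hp]
      nlinarith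
    have h6 : 0 < 1 / ((2 * (B : ℝ) + 2) ^ 2 + (2 * (B : ℝ) + 2)) := by positivity
    linarith
  · have h1 : (r + 1) / B = r / B ∧ (r + 1) % B = r % B + 1 := by
      have h2 : r % B < B := Nat.mod_lt _ hB
      have h3 : r % B + 1 ≠ B := by
        intro h
        apply hr
        have h4 : r + 1 = B * (r / B) + (r % B + 1) := by
          have := Nat.div_add_mod r B
          omega
        rw [h4, h, Nat.mul_add_mod, Nat.mod_self]
      have h5 : r % B + 1 < B := by omega
      have h4 : r + 1 = (r % B + 1) + B * (r / B) := by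
        have := Nat.div_add_mod r B
        omega
      constructor
      · conv_lhs => rw [h4]
        rw [Nat.add_mul_div_left _ _ hB, Nat.div_eq_of_lt h5, Nat.zero_add]
      · conv_lhs => rw [h4]
        rw [Nat.add_mul_mod_self_left, Nat.mod_eq_of_lt h5]
    have hj : jj m (r + 1) = jj m r := by
      unfold jj
      rw [← hBdef, h1.1]
    have hy : yy m (r + 1) = yy m r + 1 := by
      unfold yy
      rw [← hBdef, h1.2]
      push_cast
      ring
    have hyB : yy m r + 1 ≤ B := by
      rw [← hy]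
      unfold yy
      rw [← hBdef]
      have : (r + 1) % B + 1 ≤ B := Nat.mod_lt _ hB
      exact_mod_cast this
    have hy0 : 0 < yy m r := Q_yy_pos m r
    rw [hj, hy]
    have h5 : yy m r / ((2 * (B : ℝ) + 2) ^ 2 - (2 * (B : ℝ) + 2)) <
        (yy m r + 1) / ((2 * (B : ℝ) + 2) ^ 2 + (2 * (B : ℝ) + 2)) := by
      rw [div_lt_div_iff₀ hp hq]
      nlinarith
    linarith

theorem Q_ok : S_Q := by
  intro m w c' h i _
  have hw := h.1
  have hB : (1 : ℝ) ≤ (4 : ℝ) ^ m := one_le_pow₀ (by norm_num)
  have hX : XX m = (2 * (4 : ℝ) ^ m + 2) ^ 2 := rfl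
  have hD : DD m = 2 * (4 : ℝ) ^ m + 2 := rfl
  have hi4 : i = 4 * (i / 4) + i % 4 := (Nat.div_add_mod i 4).symm
  have hlt : i % 4 < 4 := Nat.mod_lt _ (by norm_num)
  generalize i / 4 = r at hi4
  generalize i % 4 = s at hi4 hlt
  subst hi4
  have hwr := abs_le.1 (hw r)
  have hy := Q_yy_pos m r
  interval_cases s
  · rcases r with _ | r
    · rw [Nat.mul_zero, Nat.zero_add, Nat.add_zero, Q_0, show (1 : ℕ) = 4 * 0 + 1 from rfl, Q_41]
      unfold lo jj
      have h1 : 0 < yy m 0 / (XX m + DD m) := by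
        apply div_pos (Q_yy_pos m 0)
        rw [hX, hD]
        positivity
      have h2 : (0 : ℝ) ≤ ((0 / 4 ^ m : ℕ) : ℝ) := by positivity
      linarith
    · rw [Nat.add_zero, Q_4, Q_41]
      exact Q_step m r
  · rw [Q_41, show 4 * r + 1 + 1 = 4 * r + 2 from rfl, Q_42]
    unfold lo ml
    have : yy m r / (XX m + DD m) < yy m r / (XX m + w r + 1) := by
      apply div_lt_div_of_pos_left hy
      · rw [hX]
        nlinarith
      · rw [hD]
        linarith
    linarith
  · rw [Q_42, show 4 * r + 2 + 1 = 4 * r + 3 from rfl, Q_43]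
    unfold ml mh
    have : yy m r / (XX m + w r + 1) < yy m r / (XX m + w r) := by
      apply div_lt_div_of_pos_left hy
      · rw [hX]
        nlinarith
      · linarith
    linarith
  · rw [Q_43, show 4 * r + 3 + 1 = 4 * (r + 1) from rfl, Q_4]
    unfold mh hi
    have : yy m r / (XX m + w r) < yy m r / (XX m - DD m) := by
      apply div_lt_div_of_pos_left hy
      · rw [hX, hD]
        nlinarith
      · rw [hD]
        linarith
    linarith

end Pool.H183.SX
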