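import Pool.Agent.H183.SX.Defs

/-!
# Regions are star-shaped about `0`
-/

open MeasureTheory Set
open scoped ENNReal

namespace Pool.H183.SX

theorem STAR_ok : S_STAR := by
  intro A
  refine ⟨0, ⟨0, Nat.zero_le _, ?_⟩, ?_⟩
  · show 0 ≤ (0 : E2) 0 ∧ A.q 0 * (0 : E2) 0 ≤ (0 : E2) 1 ∧ (0 : E2) 1 ≤ A.q (0 + 1) * (0 : E2) 0 ∧
      A.a 0 * (0 : E2) 0 + A.b 0 * (0 : E2) 1 ≤ 1
    simp
  · rintro x ⟨i, hi, hx⟩ y hy
    rw [segment_eq_image] at hy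
    obtain ⟨s, ⟨hs0, hs1⟩, rfl⟩ := hy
    obtain ⟨h1, h2, h3, h4⟩ := hx
    refine ⟨i, hi, ?_⟩
    have e0 : ((1 - s) • (0 : E2) + s • x) 0 = s * x 0 := by simp
    have e1 : ((1 - s) • (0 : E2) + s • x) 1 = s * x 1 := by simp
    refine ⟨?_, ?_, ?_, ?_⟩
    · rw [e0]
      exact mul_nonneg hs0 h1
    · rw [e0, e1]
      nlinarith [mul_le_mul_of_nonneg_left h2 hs0]
    · rw [e0, e1]
      nlinarith [mul_le_mul_of_nonneg_left h3 hs0]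
    · rw [e0, e1]
      nlinarith [mul_le_mul_of_nonneg_left h4 hs0]

end Pool.H183.SX
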