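import Pool.Agent.H183.SX.Defs

/-!
# Thue-Morse cancellation
-/

open MeasureTheory Set
open scoped ENNReal

namespace Pool.H183.SX

theorem SUM_mul (a b : ℕ) (G : ℕ → ℝ) : ∑ k ∈ Finset.range (a * b), G k =
    ∑ i ∈ Finset.range a, ∑ j ∈ Finset.range b, G (i * b + j) := by
  induction a with
  | zero => simp
  | succ a ih => rw [Nat.succ_mul, Finset.sum_range_add, ih, Finset.sum_range_succ]

theorem SUM_dig_lt (i l a d b : ℕ) (h : l < i) :
    ((a * 4 + d) * 4 ^ i + b) / 4 ^ l % 4 = b / 4 ^ l % 4 := by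
  obtain ⟨e, rfl⟩ : ∃ e, i = l + 1 + e := ⟨i - (l + 1), by omega⟩
  have h1 : (a * 4 + d) * 4 ^ (l + 1 + e) + b = b + ((a * 4 + d) * 4 ^ e * 4) * 4 ^ l := by ring
  rw [h1, Nat.add_mul_div_right _ _ (by positivity), Nat.add_mul_mod_self_right]

theorem SUM_dig_eq (i a d b : ℕ) (hb : b < 4 ^ i) (hd : d < 4) :
    ((a * 4 + d) * 4 ^ i + b) / 4 ^ i % 4 = d := by
  have h1 : (a * 4 + d) * 4 ^ i + b = b + (a * 4 + d) * 4 ^ i := by ring
  rw [h1, Nat.add_mul_div_right _ _ (by positivity), Nat.div_eq_of_lt hb]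
  omega

theorem SUM_dig_gt (i l a d b : ℕ) (hb : b < 4 ^ i) (hd : d < 4) (h : i < l) :
    ((a * 4 + d) * 4 ^ i + b) / 4 ^ l % 4 = a / 4 ^ (l - (i + 1)) % 4 := by
  obtain ⟨e, rfl⟩ : ∃ e, l = i + 1 + e := ⟨l - (i + 1), by omega⟩
  have h1 : (a * 4 + d) * 4 ^ i + b = b + (a * 4 + d) * 4 ^ i := by ring
  have h2 : (4 : ℕ) ^ (i + 1 + e) = 4 ^ i * (4 * 4 ^ e) := by ring
  rw [h1, h2, ← Nat.div_div_eq_div_mul, Nat.add_mul_div_right _ _ (by positivity),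
    Nat.div_eq_of_lt hb, ← Nat.div_div_eq_div_mul, zero_add]
  have h3 : (a * 4 + d) / 4 = a := by omega
  have h4 : i + 1 + e - (i + 1) = e := by omega
  rw [h3, h4]

theorem SUM_dig_ne (i l a d b : ℕ) (hb : b < 4 ^ i) (hd : d < 4) (h : l ≠ i) :
    ((a * 4 + d) * 4 ^ i + b) / 4 ^ l % 4 = ((a * 4 + 0) * 4 ^ i + b) / 4 ^ l % 4 := by
  rcases lt_or_gt_of_ne h with h | h
  · rw [SUM_dig_lt i l a d b h, SUM_dig_lt i l a 0 b h]
  · rw [SUM_dig_gt i l a d b hb hd h, SUM_dig_gt i l a 0 b hb (by norm_num) h]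

theorem SUM_ok : S_SUM := by
  intro t m i x0 F him
  have h4 : (4 : ℕ) ^ m = (4 ^ (m - (i + 1)) * 4) * 4 ^ i := by
    rw [mul_assoc, ← pow_succ', ← pow_add]
    congr 1
    omega
  rw [h4, SUM_mul, SUM_mul]
  refine Finset.sum_eq_zero fun a _ => ?_
  rw [Finset.sum_comm]
  refine Finset.sum_eq_zero fun b hb => ?_
  rw [Finset.mem_range] at hb
  have hi : i ∈ Finset.range m := Finset.mem_range.2 him
  -- the common value
  set S : ℤ := ∏ l ∈ (Finset.range m).erase i, s4 (((a * 4 + 0) * 4 ^ i + b) / 4 ^ l % 4) with hS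
  set T : ℝ := ∑ l ∈ (Finset.range m).erase i,
    ((((a * 4 + 0) * 4 ^ i + b) / 4 ^ l % 4 : ℕ) : ℝ) * 4 ^ l * t l with hT
  have key : ∀ d ∈ Finset.range 4, (sgn m ((a * 4 + d) * 4 ^ i + b) : ℝ) *
      ((((a * 4 + d) * 4 ^ i + b : ℕ) : ℝ) + 1) *
      F (x0 + off t m ((a * 4 + d) * 4 ^ i + b) -
        t i * ((((a * 4 + d) * 4 ^ i + b : ℕ) : ℝ) + 1)) =
      (S : ℝ) * F (x0 + T - t i * (a * 4 * 4 ^ i + b + 1)) *
        ((s4 d : ℝ) * ((a * 4 * 4 ^ i + b + 1) + d * 4 ^ i)) := by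
    intro d hd
    rw [Finset.mem_range] at hd
    have h1 : sgn m ((a * 4 + d) * 4 ^ i + b) = s4 d * S := by
      unfold sgn
      rw [← Finset.mul_prod_erase _ _ hi, SUM_dig_eq i a d b hb hd, hS]
      congr 1
      refine Finset.prod_congr rfl fun l hl => ?_
      rw [SUM_dig_ne i l a d b hb hd (Finset.ne_of_mem_erase hl)]
    have h2 : off t m ((a * 4 + d) * 4 ^ i + b) = d * 4 ^ i * t i + T := by
      unfold off
      rw [← Finset.add_sum_erase _ _ hi, SUM_dig_eq i a d b hb hd, hT]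
      congr 1
      refine Finset.sum_congr rfl fun l hl => ?_
      rw [SUM_dig_ne i l a d b hb hd (Finset.ne_of_mem_erase hl)]
    have h3 : x0 + (d * 4 ^ i * t i + T) - t i * ((((a * 4 + d) * 4 ^ i + b : ℕ) : ℝ) + 1) =
        x0 + T - t i * (a * 4 * 4 ^ i + b + 1) := by
      push_cast
      ring
    rw [h1, h2, h3]
    push_cast
    ring
  rw [Finset.sum_congr rfl key, ← Finset.mul_sum]
  have h5 : ∑ d ∈ Finset.range 4, ((s4 d : ℝ) * (((a : ℝ) * 4 * 4 ^ i + b + 1) + d * 4 ^ i)) = 0 := by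
    simp only [Finset.sum_range_succ, Finset.sum_range_zero, s4]
    norm_num
    ring
  rw [h5, mul_zero]

end Pool.H183.SX
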