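import Pool.Agent.H183.SX.Defs

open MeasureTheory Set
open scoped ENNReal

namespace Pool.H183.SX

lemma WEAK_yy (m r : ℕ) : 0 < yy m r := by unfold yy; positivity

lemma WEAK_cc (m r : ℕ) : yy m r ≤ cc m r := by
  have := WEAK_yy m r
  unfold cc; split_ifs <;> linarith

lemma WEAK_pow (m : ℕ) : (1 : ℝ) ≤ 4 ^ m := one_le_pow₀ (by norm_num)

lemma WEAK_lt (c y Z : ℝ) (hy : 0 < y) (hc : y ≤ c) (hZ : 1 < Z) : y / Z / c ≠ 1 := by
  have hc0 : 0 < c := lt_of_lt_of_le hy hc
  have hZ0 : 0 < Z := by linarith
  intro h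
  rw [div_div, div_eq_one_iff_eq (by positivity)] at h
  nlinarith

lemma WEAK_ne (c c' z : ℝ) (hc : 0 < c) (hc' : 0 < c') (hz : 0 < z) (h : c ≠ c') :
    z / c ≠ z / c' := by
  intro h1
  rw [div_eq_div_iff hc.ne' hc'.ne'] at h1
  exact h (mul_left_cancel₀ hz.ne' h1).symm

theorem WEAK_ok : S_WEAK := by
  intro hQ hL m w c' h i hi
  have hP := WEAK_pow m
  change i < 4 * MM m at hi
  show aa m c' i + bb m c' i * qq m w (i + 1) ≠ aa m c' (i + 1) + bb m c' (i + 1) * qq m w (i + 1) ∨
    (aa m c' i = aa m c' (i + 1) ∧ bb m c' i = bb m c' (i + 1))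
  obtain ⟨r, hr⟩ : ∃ r, r = i / 4 := ⟨_, rfl⟩
  have hy := WEAK_yy m r
  have hcc := WEAK_cc m r
  have hcc0 : 0 < cc m r := lt_of_lt_of_le hy hcc
  have hc'0 : 0 < c' r := by
    rcases h.2 r with h1 | h1 <;> rw [h1] <;> linarith
  have hw := abs_le.1 (h.1 r)
  have hX : (2 * (4 : ℝ) ^ m + 2) ^ 2 = XX m := rfl
  have hD : (2 * (4 : ℝ) ^ m + 2) = DD m := rfl
  have hXbig : 2 * (4 : ℝ) ^ m + 1 < XX m - DD m := by
    rw [← hX, ← hD]; nlinarith
  have hDpos : 0 < DD m := by rw [← hD]; positivity
  rcases (by omega : i = 4 * r ∨ i = 4 * r + 1 ∨ i = 4 * r + 2 ∨ i = 4 * r + 3) with e | e | e | e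
  · left
    have q1 : qq m w (i + 1) = lo m r := by
      unfold qq
      rw [if_neg (by omega), if_neg (by omega), if_pos (by omega)]
      congr 1; omega
    have a1 : aa m c' i = 1 := by unfold aa; rw [if_pos (by omega)]
    have b1 : bb m c' i = 0 := by unfold bb; rw [if_pos (by omega)]
    have e4 : (i + 1) / 4 = r := by omega
    have a2 : aa m c' (i + 1) = - jj m r / cc m r := by
      unfold aa; rw [if_neg (by omega), if_neg (by omega), e4]
    have b2 : bb m c' (i + 1) = 1 / cc m r := by
      unfold bb; rw [if_neg (by omega), if_neg (by omega), e4]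
    rw [q1, a1, b1, a2, b2, lo]
    intro hcon
    apply WEAK_lt (cc m r) (yy m r) (XX m + DD m) hy hcc (by linarith)
    have : - jj m r / cc m r + 1 / cc m r * (jj m r + yy m r / (XX m + DD m)) =
        yy m r / (XX m + DD m) / cc m r := by ring
    rw [this] at hcon
    linarith
  · have q1 : qq m w (i + 1) = ml m w r := by
      unfold qq
      rw [if_neg (by omega), if_neg (by omega), if_neg (by omega), if_pos (by omega)]
      congr 1; omega
    have a1 : aa m c' i = - jj m r / cc m r := by
      unfold aa; rw [if_neg (by omega), if_neg (by omega), ← hr]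
    have b1 : bb m c' i = 1 / cc m r := by
      unfold bb; rw [if_neg (by omega), if_neg (by omega), ← hr]
    have e4 : (i + 1) / 4 = r := by omega
    have a2 : aa m c' (i + 1) = - jj m r / c' r := by
      unfold aa; rw [if_neg (by omega), if_pos (by omega), e4]
    have b2 : bb m c' (i + 1) = 1 / c' r := by
      unfold bb; rw [if_neg (by omega), if_pos (by omega), e4]
    by_cases hc : cc m r = c' r
    · right
      rw [a1, b1, a2, b2, hc]
      exact ⟨rfl, rfl⟩
    · left
      rw [q1, a1, b1, a2, b2, ml]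
      intro hcon
      have hz : 0 < yy m r / (XX m + w r + 1) := div_pos hy (by linarith [hw.1])
      apply WEAK_ne (cc m r) (c' r) _ hcc0 hc'0 hz hc
      have h1 : - jj m r / cc m r + 1 / cc m r * (jj m r + yy m r / (XX m + w r + 1)) =
        yy m r / (XX m + w r + 1) / cc m r := by ring
      have h2 : - jj m r / c' r + 1 / c' r * (jj m r + yy m r / (XX m + w r + 1)) =
        yy m r / (XX m + w r + 1) / c' r := by ring
      rw [h1, h2] at hcon
      exact hcon
  · have q1 : qq m w (i + 1) = mh m w r := by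
      unfold qq
      rw [if_neg (by omega), if_neg (by omega), if_neg (by omega), if_neg (by omega)]
      congr 1; omega
    have a1 : aa m c' i = - jj m r / c' r := by
      unfold aa; rw [if_neg (by omega), if_pos (by omega), ← hr]
    have b1 : bb m c' i = 1 / c' r := by
      unfold bb; rw [if_neg (by omega), if_pos (by omega), ← hr]
    have e4 : (i + 1) / 4 = r := by omega
    have a2 : aa m c' (i + 1) = - jj m r / cc m r := by
      unfold aa; rw [if_neg (by omega), if_neg (by omega), e4]
    have b2 : bb m c' (i + 1) = 1 / cc m r := by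
      unfold bb; rw [if_neg (by omega), if_neg (by omega), e4]
    by_cases hc : cc m r = c' r
    · right
      rw [a1, b1, a2, b2, hc]
      exact ⟨rfl, rfl⟩
    · left
      rw [q1, a1, b1, a2, b2, mh]
      intro hcon
      have hz : 0 < yy m r / (XX m + w r) := div_pos hy (by linarith [hw.1])
      apply WEAK_ne (cc m r) (c' r) _ hcc0 hc'0 hz hc
      have h1 : - jj m r / cc m r + 1 / cc m r * (jj m r + yy m r / (XX m + w r)) =
        yy m r / (XX m + w r) / cc m r := by ring
      have h2 : - jj m r / c' r + 1 / c' r * (jj m r + yy m r / (XX m + w r)) =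
        yy m r / (XX m + w r) / c' r := by ring
      rw [h1, h2] at hcon
      exact hcon.symm
  · left
    have q1 : qq m w (i + 1) = Pool.H183.SX.hi m r := by
      unfold qq
      rw [if_neg (by omega), if_pos (by omega)]
      show Pool.H183.SX.hi m ((i + 1) / 4 - 1) = Pool.H183.SX.hi m r
      congr 1; omega
    have a1 : aa m c' i = - jj m r / cc m r := by
      unfold aa; rw [if_neg (by omega), if_neg (by omega), ← hr]
    have b1 : bb m c' i = 1 / cc m r := by
      unfold bb; rw [if_neg (by omega), if_neg (by omega), ← hr]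
    have a2 : aa m c' (i + 1) = 1 := by unfold aa; rw [if_pos (by omega)]
    have b2 : bb m c' (i + 1) = 0 := by unfold bb; rw [if_pos (by omega)]
    rw [q1, a1, b1, a2, b2]
    intro hcon
    apply WEAK_lt (cc m r) (yy m r) (XX m - DD m) hy hcc (by linarith)
    have : - jj m r / cc m r + 1 / cc m r * (jj m r + yy m r / (XX m - DD m)) =
        yy m r / (XX m - DD m) / cc m r := by ring
    change - jj m r / cc m r + 1 / cc m r * (jj m r + yy m r / (XX m - DD m)) = 1 + 0 * _ at hcon
    rw [this] at hcon
    linarith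

end Pool.H183.SX
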