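import Pool.Agent.H183.SX.Defs

/-!
# The X-rays agree
-/

open MeasureTheory Set
open scoped ENNReal

namespace Pool.H183.SX

theorem XR_s4 (d : ℕ) : s4 d = 1 ∨ s4 d = -1 := by
  unfold s4
  split_ifs
  · exact Or.inl rfl
  · exact Or.inr rfl

theorem XR_sgn (m k : ℕ) : sgn m k = 1 ∨ sgn m k = -1 := by
  unfold sgn
  induction m with
  | zero => simp
  | succ m ih =>
    rw [Finset.prod_range_succ]
    rcases ih with h | h <;> rcases XR_s4 (k / 4 ^ m % 4) with h' | h' <;> rw [h, h'] <;> simp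

theorem XR_ok (hD : S_DIFF) (hM : S_MID) (hN : S_NPAR) (hS : S_SUM) (hP : S_PSI) : S_XR := by
  intro hQ hL m j t u x h h' hj ht hu hi
  obtain ⟨i, him, hti⟩ := hi
  set A := prof hQ hL m (ww m j t) (cc m) h with hA
  set A' := prof hQ hL m (ww m j t) (cf m j) h' with hA'
  have hdiv : ∀ k < 4 ^ m, (j * 4 ^ m + k) / 4 ^ m = j := by
    intro k hk
    rw [add_comm, Nat.add_mul_div_right _ _ (by positivity), Nat.div_eq_of_lt hk, zero_add]
  have hmod : ∀ k < 4 ^ m, (j * 4 ^ m + k) % 4 ^ m = k := by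
    intro k hk
    rw [add_comm, Nat.add_mul_mod_self_right, Nat.mod_eq_of_lt hk]
  set I : Finset ℕ := (Finset.range (4 ^ m)).image (fun k => 4 * (j * 4 ^ m + k) + 2) with hI
  have hIle : ∀ i ∈ I, i ≤ A.N := by
    intro i hi
    rw [hI, Finset.mem_image] at hi
    obtain ⟨k, hk, rfl⟩ := hi
    rw [Finset.mem_range] at hk
    show 4 * (j * 4 ^ m + k) + 2 ≤ 4 * MM m
    unfold MM
    have h1 : (j + 1) * 4 ^ m ≤ (m + 1) * 4 ^ m := Nat.mul_le_mul_right _ (by omega)
    have h2 : (j + 1) * 4 ^ m = j * 4 ^ m + 4 ^ m := by ring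
    omega
  have hout : ∀ i ≤ A.N, i ∉ I → A'.a i = A.a i ∧ A'.b i = A.b i := by
    intro i _ hi
    have hc : i % 4 = 2 → cf m j (i / 4) = cc m (i / 4) := by
      intro h2
      unfold cf
      rw [if_neg]
      intro h3
      apply hi
      rw [hI, Finset.mem_image]
      refine ⟨i / 4 % 4 ^ m, Finset.mem_range.2 (Nat.mod_lt _ (by positivity)), ?_⟩
      have h4 := Nat.div_add_mod (i / 4) (4 ^ m)
      rw [h3] at h4
      have h5 : j * 4 ^ m = 4 ^ m * j := by ring
      omega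
    constructor
    · show aa m (cf m j) i = aa m (cc m) i
      unfold aa
      by_cases h2 : i % 4 = 2
      · rw [hc h2]
      · simp only [h2, if_false]
    · show bb m (cf m j) i = bb m (cc m) i
      unfold bb
      by_cases h2 : i % 4 = 2
      · rw [hc h2]
      · simp only [h2, if_false]
  have hpar : ∀ i ∈ I, u 1 - A.q i * u 0 ≠ 0 ∧ u 1 - A.q (i + 1) * u 0 ≠ 0 := by
    intro i' hi'
    rw [hI, Finset.mem_image] at hi'
    obtain ⟨k, hk, rfl⟩ := hi'
    rw [Finset.mem_range] at hk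
    exact hN m j k (ww m j t) u h.1 hk hu (by rw [hti]; exact ht i)
  have hdiff := hD A A' I x u rfl rfl hIle hout hpar
  -- the sums
  have hinj : Set.InjOn (fun k => 4 * (j * 4 ^ m + k) + 2) (Finset.range (4 ^ m) : Set ℕ) := by
    intro a _ b _ hab
    simp only at hab
    omega
  set Y : ℝ := x 0 - u 0 / (u 1 - (j : ℝ) * u 0) * (x 1 - (j : ℝ) * x 0) with hY
  set Xi : ℕ → ℝ := fun k => XX m + off t m k - t i * ((k : ℝ) + 1) with hXi
  set W : ℕ → ℝ := fun k => ((k : ℝ) + 1) / |u 1 - (j : ℝ) * u 0| with hW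
  have hW0 : ∀ k, 0 ≤ W k := fun k => by rw [hW]; positivity
  have hww : ∀ k < 4 ^ m, ww m j t (j * 4 ^ m + k) = off t m k := by
    intro k hk
    unfold ww
    rw [if_pos (hdiv k hk), hmod k hk]
  have hyy : ∀ k < 4 ^ m, yy m (j * 4 ^ m + k) = (k : ℝ) + 1 := by
    intro k hk
    unfold yy
    rw [hmod k hk]
  have e1 : ∑ i ∈ I, volume (A.lin x u i) = ∑ k ∈ Finset.range (4 ^ m),
      ENNReal.ofReal (W k) * Psi (Xi k) Y (if sgn m k = 1 then 1 else 2) := by
    rw [hI, Finset.sum_image hinj]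
    refine Finset.sum_congr rfl fun k hk => ?_
    rw [Finset.mem_range] at hk
    have h1 := hM hQ hL m j k (ww m j t) (cc m) h x u (if sgn m k = 1 then 1 else 2) hk
      (by split_ifs <;> simp) (by
        unfold cc
        rw [hmod k hk, hyy k hk]
        split_ifs <;> ring) hu
    rw [hww k hk, hti] at h1
    rw [hA, h1, hY, hti]
  have e2 : ∑ i ∈ I, volume (A'.lin x u i) = ∑ k ∈ Finset.range (4 ^ m),
      ENNReal.ofReal (W k) * Psi (Xi k) Y (if sgn m k = 1 then 2 else 1) := by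
    rw [hI, Finset.sum_image hinj]
    refine Finset.sum_congr rfl fun k hk => ?_
    rw [Finset.mem_range] at hk
    have h1 := hM hQ hL m j k (ww m j t) (cf m j) h' x u (if sgn m k = 1 then 2 else 1) hk
      (by split_ifs <;> simp) (by
        unfold cf
        rw [if_pos (hdiv k hk), hmod k hk, hyy k hk]
        split_ifs <;> ring) hu
    rw [hww k hk, hti] at h1
    rw [hA', h1, hY, hti]
  have f1 : ∀ g : ℕ → ℝ, (∑ k ∈ Finset.range (4 ^ m),
      ENNReal.ofReal (W k) * Psi (Xi k) Y (g k)) ≠ ∞ := by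
    intro g
    refine ENNReal.sum_ne_top.2 fun k _ => ?_
    exact ENNReal.mul_ne_top ENNReal.ofReal_ne_top (hP _ _ _)
  have f2 : ∀ g : ℕ → ℝ, (∑ k ∈ Finset.range (4 ^ m),
      ENNReal.ofReal (W k) * Psi (Xi k) Y (g k)).toReal =
      ∑ k ∈ Finset.range (4 ^ m), W k * (Psi (Xi k) Y (g k)).toReal := by
    intro g
    rw [ENNReal.toReal_sum (fun k _ => ENNReal.mul_ne_top ENNReal.ofReal_ne_top (hP _ _ _))]
    refine Finset.sum_congr rfl fun k _ => ?_
    rw [ENNReal.toReal_mul, ENNReal.toReal_ofReal (hW0 k)]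
  have hsum := hS t m i (XX m) (fun z => (Psi z Y 2).toReal - (Psi z Y 1).toReal) him
  have e3 : ∑ i ∈ I, volume (A.lin x u i) = ∑ i ∈ I, volume (A'.lin x u i) := by
    rw [e1, e2, ← ENNReal.toReal_eq_toReal_iff' (f1 _) (f1 _), f2, f2, ← sub_eq_zero,
      ← Finset.sum_sub_distrib]
    have h3 : ∑ k ∈ Finset.range (4 ^ m), (W k * (Psi (Xi k) Y (if sgn m k = 1 then 1 else 2)).toReal -
        W k * (Psi (Xi k) Y (if sgn m k = 1 then 2 else 1)).toReal) =
        ∑ k ∈ Finset.range (4 ^ m), (-(1 / |u 1 - (j : ℝ) * u 0|)) *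
          ((sgn m k : ℝ) * ((k : ℝ) + 1) *
          ((Psi (XX m + off t m k - t i * ((k : ℝ) + 1)) Y 2).toReal -
            (Psi (XX m + off t m k - t i * ((k : ℝ) + 1)) Y 1).toReal)) := by
      refine Finset.sum_congr rfl fun k _ => ?_
      rw [hW, hXi]
      rcases XR_sgn m k with h1 | h1
      · rw [h1, if_pos rfl, if_pos rfl]
        push_cast
        ring
      · rw [h1, if_neg (by norm_num), if_neg (by norm_num)]
        push_cast
        ring
    rw [h3, ← Finset.mul_sum]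
    rw [hsum, mul_zero]
  have hfin : ∑ i ∈ I, volume (A'.lin x u i) ≠ ∞ := by rw [e2]; exact f1 _
  rw [e3] at hdiff
  exact (ENNReal.add_left_inj hfin).1 hdiff

end Pool.H183.SX
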