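import Pool.Agent.H183.SX.Asm
import Pool.Agent.H183.SX.STAR
import Pool.Agent.H183.SX.CPT
import Pool.Agent.H183.SX.INJ
import Pool.Agent.H183.SX.OUT
import Pool.Agent.H183.SX.INN
import Pool.Agent.H183.SX.POLY
import Pool.Agent.H183.SX.MERGE
import Pool.Agent.H183.SX.DIFF
import Pool.Agent.H183.SX.PSI
import Pool.Agent.H183.SX.LINE
import Pool.Agent.H183.SX.OFF
import Pool.Agent.H183.SX.SUM
import Pool.Agent.H183.SX.PIG
import Pool.Agent.H183.SX.Q
import Pool.Agent.H183.SX.L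
import Pool.Agent.H183.SX.WEAK
import Pool.Agent.H183.SX.IND
import Pool.Agent.H183.SX.ADM
import Pool.Agent.H183.SX.NE
import Pool.Agent.H183.SX.MID
import Pool.Agent.H183.SX.NPAR
import Pool.Agent.H183.SX.XR

/-! the theorem -/

namespace Pool.H183.SX

theorem main : Main :=
  main_of STAR_ok (MERGE_ok (POLY_ok CPT_ok INJ_ok t_OUT (INN_ok CPT_ok))) Q_ok L_ok WEAK_ok
    IND_ok (ADM_ok OFF_ok) NE_ok PIG_ok
    (XR_ok DIFF_ok (MID_ok LINE_ok) NPAR_ok SUM_ok PSI_ok)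

end Pool.H183.SX
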