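import Pool.Agent.H183.SX.Defs

open MeasureTheory Set
open scoped ENNReal

set_option autoImplicit false

namespace Pool.H183.SX

theorem L_aux {j c y Z : ℝ} (hc : 0 < c) (hy : 0 < y) (hZ : 0 < Z) :
    0 < -j / c + 1 / c * (j + y / Z) := by
  have h : -j / c + 1 / c * (j + y / Z) = y / Z / c := by
    field_simp
    ring
  rw [h]
  positivity

theorem L_yy (m r : ℕ) : 0 < yy m r := by
  unfold yy
  positivity

theorem L_cc (m r : ℕ) : 0 < cc m r := by
  have h := L_yy m r
  unfold cc
  split_ifs
  · exact h
  · linarith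

theorem L_pow (m : ℕ) : (1 : ℝ) ≤ 4 ^ m := one_le_pow₀ (by norm_num)

theorem L_lo (m : ℕ) : 0 < XX m + DD m := by
  have h := L_pow m
  unfold XX DD
  positivity

theorem L_hi (m : ℕ) : 0 < XX m - DD m := by
  have h := L_pow m
  unfold XX DD
  nlinarith

theorem L_w (m : ℕ) (w : ℝ) (hw : |w| ≤ 2 * 4 ^ m) : 0 < XX m + w := by
  have h := L_pow m
  have h1 := (abs_le.1 hw).1
  unfold XX
  nlinarith

theorem L_ok : S_L := by
  intro m w c' hA i _
  have hw : ∀ r, 0 < XX m + w r := fun r => L_w m (w r) (hA.1 r)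
  have hw1 : ∀ r, 0 < XX m + w r + 1 := fun r => by have := hw r; linarith
  have hc' : ∀ r, 0 < c' r := by
    intro r
    have h := L_yy m r
    rcases hA.2 r with h1 | h1 <;> rw [h1]
    · exact h
    · linarith
  have hmod : i % 4 = 0 ∨ i % 4 = 1 ∨ i % 4 = 2 ∨ i % 4 = 3 := by omega
  rcases hmod with h | h | h | h
  · have ha : aa m c' i = 1 := by unfold aa; rw [if_pos h]
    have hb : bb m c' i = 0 := by unfold bb; rw [if_pos h]
    rw [ha, hb]
    constructor <;> simp
  · have ha : aa m c' i = - jj m (i / 4) / cc m (i / 4) := by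
      unfold aa; rw [if_neg (by omega), if_neg (by omega)]
    have hb : bb m c' i = 1 / cc m (i / 4) := by
      unfold bb; rw [if_neg (by omega), if_neg (by omega)]
    have q1 : qq m w i = lo m (i / 4) := by
      unfold qq; rw [if_neg (by omega), if_neg (by omega), if_pos h]
    have q2 : qq m w (i + 1) = ml m w (i / 4) := by
      unfold qq
      rw [if_neg (by omega), if_neg (by omega), if_neg (by omega), if_pos (by omega),
        show (i + 1) / 4 = i / 4 by omega]
    rw [ha, hb, q1, q2]
    exact ⟨L_aux (L_cc m _) (L_yy m _) (L_lo m), L_aux (L_cc m _) (L_yy m _) (hw1 _)⟩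
  · have ha : aa m c' i = - jj m (i / 4) / c' (i / 4) := by
      unfold aa; rw [if_neg (by omega), if_pos h]
    have hb : bb m c' i = 1 / c' (i / 4) := by
      unfold bb; rw [if_neg (by omega), if_pos h]
    have q1 : qq m w i = ml m w (i / 4) := by
      unfold qq; rw [if_neg (by omega), if_neg (by omega), if_neg (by omega), if_pos h]
    have q2 : qq m w (i + 1) = mh m w (i / 4) := by
      unfold qq
      rw [if_neg (by omega), if_neg (by omega), if_neg (by omega), if_neg (by omega),
        show (i + 1) / 4 = i / 4 by omega]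
    rw [ha, hb, q1, q2]
    exact ⟨L_aux (hc' _) (L_yy m _) (hw1 _), L_aux (hc' _) (L_yy m _) (hw _)⟩
  · have ha : aa m c' i = - jj m (i / 4) / cc m (i / 4) := by
      unfold aa; rw [if_neg (by omega), if_neg (by omega)]
    have hb : bb m c' i = 1 / cc m (i / 4) := by
      unfold bb; rw [if_neg (by omega), if_neg (by omega)]
    have q1 : qq m w i = mh m w (i / 4) := by
      unfold qq; rw [if_neg (by omega), if_neg (by omega), if_neg (by omega), if_neg (by omega)]
    have q2 : qq m w (i + 1) = hi m (i / 4) := by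
      unfold qq
      rw [if_neg (by omega), if_pos (by omega), show (i + 1) / 4 - 1 = i / 4 by omega]
    rw [ha, hb, q1, q2]
    exact ⟨L_aux (L_cc m _) (L_yy m _) (hw _), L_aux (L_cc m _) (L_yy m _) (L_hi m)⟩

end Pool.H183.SX
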